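import Pool.Agent.Work.MP_4da8b1_gt_helper41.Pairwise

/-!
From chords of the convex hulls to a choice of vertices.
-/

open Module
open scoped BigOperators

namespace Pool.Agent.MP_4da8b1_gt_H41

/-- Points of the convex hulls can be replaced by vertices. -/
lemma exists_vertices {n N : ℕ} (U : Fin N → Finset (EuclideanSpace ℝ (Fin n)))
    (hU : ∀ i, ∀ u ∈ U i, ‖u‖ = 1) (c : EuclideanSpace ℝ (Fin n))
    (y : Fin N → EuclideanSpace ℝ (Fin n))
    (hy : ∀ i, y i ∈ convexHull ℝ (U i : Set (EuclideanSpace ℝ (Fin n)))) :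
    ∃ u : Fin N → EuclideanSpace ℝ (Fin n), (∀ i, u i ∈ U i) ∧
      ‖∑ i, y i - c‖ ^ 2 + ∑ i, (1 - ‖y i‖ ^ 2) ≤ ‖∑ i, u i - c‖ ^ 2 := by
  classical
  have key : ∀ s : Finset (Fin N), ∃ u : Fin N → EuclideanSpace ℝ (Fin n),
      (∀ i ∈ s, u i ∈ U i) ∧
      (∀ i, u i ∈ convexHull ℝ (U i : Set (EuclideanSpace ℝ (Fin n)))) ∧
      ‖∑ i, y i - c‖ ^ 2 + ∑ i, (1 - ‖y i‖ ^ 2) ≤ ‖∑ i, u i - c‖ ^ 2 + ∑ i, (1 - ‖u i‖ ^ 2) := by
    intro s
    induction s using Finset.induction_on with
    | empty => exact ⟨y, by simp, hy, le_rfl⟩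
    | insert j s hj ih =>
      obtain ⟨u, hus, huc, hle⟩ := ih
      set z := ∑ i ∈ Finset.univ.erase j, u i - c with hz
      have hconv : ConvexOn ℝ Set.univ fun x : EuclideanSpace ℝ (Fin n) => inner ℝ z x := by
        refine ⟨convex_univ, fun a _ b _ s r _ _ _ => le_of_eq ?_⟩
        simp only [inner_add_right, inner_smul_right, smul_eq_mul]
      obtain ⟨x, hx, hxle⟩ := hconv.exists_ge_of_mem_convexHull (Set.subset_univ _) (huc j)
      have hx' : x ∈ U j := by simpa using hx
      have hval : ∀ r : EuclideanSpace ℝ (Fin n),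
          ‖∑ i, Function.update u j r i - c‖ ^ 2 +
            ∑ i, (1 - ‖Function.update u j r i‖ ^ 2) =
          2 * inner ℝ z r + ‖z‖ ^ 2 + 1 + ∑ i ∈ Finset.univ.erase j, (1 - ‖u i‖ ^ 2) := by
        intro r
        rw [← Finset.add_sum_erase _ _ (Finset.mem_univ j),
          ← Finset.add_sum_erase _ (fun i => 1 - ‖Function.update u j r i‖ ^ 2)
            (Finset.mem_univ j)]
        have h1 : ∑ i ∈ Finset.univ.erase j, Function.update u j r i =
            ∑ i ∈ Finset.univ.erase j, u i :=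
          Finset.sum_congr rfl fun i hi => by
            rw [Function.update_of_ne (Finset.ne_of_mem_erase hi)]
        have h2 : ∑ i ∈ Finset.univ.erase j, (1 - ‖Function.update u j r i‖ ^ 2) =
            ∑ i ∈ Finset.univ.erase j, (1 - ‖u i‖ ^ 2) :=
          Finset.sum_congr rfl fun i hi => by
            rw [Function.update_of_ne (Finset.ne_of_mem_erase hi)]
        rw [h1, h2, Function.update_self, add_sub_assoc, ← hz, norm_add_sq_real,
          real_inner_comm]
        ring
      refine ⟨Function.update u j x, ?_, ?_, ?_⟩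
      · intro i hi
        by_cases hij : i = j
        · rw [hij, Function.update_self]; exact hx'
        · rw [Function.update_of_ne hij]
          exact hus i ((Finset.mem_insert.1 hi).resolve_left hij)
      · intro i
        by_cases hij : i = j
        · rw [hij, Function.update_self]; exact subset_convexHull ℝ _ hx
        · rw [Function.update_of_ne hij]; exact huc i
      · refine hle.trans ?_
        have h1 := hval (u j)
        rw [Function.update_eq_self] at h1
        rw [h1, hval x]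
        linarith
  obtain ⟨u, hu, _, hle⟩ := key Finset.univ
  refine ⟨u, fun i => hu i (Finset.mem_univ i), hle.trans (le_of_eq ?_)⟩
  have : ∑ i, (1 - ‖u i‖ ^ 2) = 0 :=
    Finset.sum_eq_zero fun i _ => by rw [hU i _ (hu i (Finset.mem_univ i))]; norm_num
  rw [this, add_zero]

/-- The basic estimate from a system of chords `[m_i - w_i, m_i + w_i]`. -/
lemma of_chords {n : ℕ} (U : Fin (n + 1) → Finset (EuclideanSpace ℝ (Fin n)))
    (hU : ∀ i, ∀ u ∈ U i, ‖u‖ = 1) (c : EuclideanSpace ℝ (Fin n))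
    (m w : Fin (n + 1) → EuclideanSpace ℝ (Fin n))
    (h1 : ∀ i, m i + w i ∈ convexHull ℝ (U i : Set (EuclideanSpace ℝ (Fin n))))
    (h2 : ∀ i, m i - w i ∈ convexHull ℝ (U i : Set (EuclideanSpace ℝ (Fin n))))
    (horth : ∀ i, inner ℝ (m i) (w i) = 0)
    (hS : ‖c‖ ^ 2 + ∑ i, ‖m i‖ ^ 2 ≤ ‖c - ∑ i, m i‖ ^ 2)
    (h0 : ∀ i, 1 ≤ ‖c - ∑ i, m i‖ ^ 2 + ‖w i‖ ^ 2)
    (hij : ∀ i j, i ≠ j → 1 ≤ ‖w i‖ ^ 2 + ‖w j‖ ^ 2) :
    ∃ u : Fin (n + 1) → EuclideanSpace ℝ (Fin n), (∀ i, u i ∈ U i) ∧
      (n : ℝ) + 2 + ‖c‖ ^ 2 ≤ ‖∑ i, u i - c‖ ^ 2 := by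
  set v : Option (Fin (n + 1)) → EuclideanSpace ℝ (Fin n) :=
    fun o => o.elim (c - ∑ i, m i) w with hv
  obtain ⟨ε, hε, hsum⟩ := exists_signs_add_one (n := n) (ι := Option (Fin (n + 1)))
    (by simp) v (by
      intro a b hab
      cases a with
      | none =>
        cases b with
        | none => exact absurd rfl hab
        | some j => exact h0 j
      | some i =>
        cases b with
        | none => rw [add_comm]; exact h0 i
        | some j => exact hij i j fun h => hab (by rw [h]))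
  rw [Fintype.sum_option, Fintype.sum_option] at hsum
  simp only [hv, Option.elim_none, Option.elim_some] at hsum
  -- normalise the sign of the first vector
  set s : ℝ := - ε none with hs
  have hs2 : s ^ 2 = 1 := by rcases hε none with h | h <;> rw [hs, h] <;> norm_num
  have hse : s * ε none = -1 := by rcases hε none with h | h <;> rw [hs, h] <;> norm_num
  have hy : ∀ i, s * ε (some i) = 1 ∨ s * ε (some i) = -1 := by
    intro i
    rcases hε none with h | h <;> rcases hε (some i) with h' | h' <;> rw [hs, h, h'] <;>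
      norm_num
  have hnorm : ‖ε none • (c - ∑ i, m i) + ∑ i, ε (some i) • w i‖ ^ 2 =
      ‖∑ i, (m i + (s * ε (some i)) • w i) - c‖ ^ 2 := by
    have h3 : ∑ i, (m i + (s * ε (some i)) • w i) - c =
        s • (ε none • (c - ∑ i, m i) + ∑ i, ε (some i) • w i) := by
      rw [smul_add, smul_smul, hse, Finset.smul_sum, Finset.sum_add_distrib]
      simp only [smul_smul]
      module
    rw [h3, norm_smul, mul_pow, Real.norm_eq_abs, sq_abs, hs2, one_mul]
  rw [hnorm] at hsum
  obtain ⟨u, hu, hle⟩ := exists_vertices U hU c (fun i => m i + (s * ε (some i)) • w i) (by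
    intro i
    rcases hy i with h | h
    · simp only [h, one_smul]; exact h1 i
    · simp only [h, neg_smul, one_smul, ← sub_eq_add_neg]; exact h2 i)
  refine ⟨u, hu, le_trans ?_ hle⟩
  have h4 : ∀ i, ‖m i + (s * ε (some i)) • w i‖ ^ 2 = ‖m i‖ ^ 2 + ‖w i‖ ^ 2 := by
    intro i
    rw [norm_add_sq_real, inner_smul_right, horth i, norm_smul, mul_pow, Real.norm_eq_abs]
    rcases hy i with h | h <;> rw [h] <;> norm_num
  have h5 : ∑ i, (1 - ‖m i + (s * ε (some i)) • w i‖ ^ 2) =
      (n : ℝ) + 1 - ∑ i, ‖m i‖ ^ 2 - ∑ i, ‖w i‖ ^ 2 := by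
    rw [Finset.sum_congr rfl fun i _ => by rw [h4 i], Finset.sum_sub_distrib,
      Finset.sum_add_distrib]
    simp
    ring
  rw [h5]
  linarith

end Pool.Agent.MP_4da8b1_gt_H41
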