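import Mathlib

/-!
Signs and eigenvalues: the chain argument.
-/

open Module
open scoped BigOperators

namespace Pool.Agent.MP_4da8b1_gt_H41

variable {ι : Type*} [Fintype ι]

/-- the cube `[-1,1]^ι` -/
def cube (ι : Type*) [Fintype ι] : Set (EuclideanSpace ℝ ι) := {x | ∀ i, |x i| ≤ 1}

lemma isClosed_cube : IsClosed (cube ι) := by
  have : cube ι = ⋂ i, {x : EuclideanSpace ℝ ι | |x i| ≤ 1} := by
    ext x; simp [cube]
  rw [this]
  refine isClosed_iInter fun i => isClosed_le ?_ continuous_const
  fun_prop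

lemma isCompact_cube : IsCompact (cube ι) := by
  refine Metric.isCompact_of_isClosed_isBounded isClosed_cube ?_
  refine (Metric.isBounded_iff_subset_closedBall 0).2 ⟨Fintype.card ι, fun x hx => ?_⟩
  rw [mem_closedBall_zero_iff, EuclideanSpace.norm_eq]
  have h1 : ∑ i, ‖x i‖ ^ 2 ≤ (Fintype.card ι : ℝ) := by
    calc ∑ i, ‖x i‖ ^ 2 ≤ ∑ _i : ι, (1 : ℝ) := by
          refine Finset.sum_le_sum fun i _ => ?_
          have := hx i
          rw [Real.norm_eq_abs]
          nlinarith [abs_nonneg (x i)]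
      _ = _ := by simp
  have h2 : (Fintype.card ι : ℝ) ≤ (Fintype.card ι : ℝ) ^ 2 := by
    rcases Nat.eq_zero_or_pos (Fintype.card ι) with h | h
    · rw [h]; simp
    · have : (1 : ℝ) ≤ Fintype.card ι := by exact_mod_cast h
      nlinarith
  exact Real.sqrt_le_iff.2 ⟨Nat.cast_nonneg _, h1.trans h2⟩

/-- **Bauer's maximum principle** for a continuous function with convex inequality on segments. -/
lemma exists_extreme_ge {E : Type*} [NormedAddCommGroup E] [NormedSpace ℝ E]
    {K : Set E} (hK : IsCompact K) {x : E} (hx : x ∈ K) {f : E → ℝ} (hf : Continuous f)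
    (hconv : ConvexOn ℝ Set.univ f) : ∃ z ∈ K.extremePoints ℝ, f x ≤ f z := by
  obtain ⟨y, hyK, hy⟩ := hK.exists_isMaxOn ⟨x, hx⟩ hf.continuousOn
  set M : Set E := {z ∈ K | f z = f y} with hM
  have hMc : IsCompact M := by
    refine hK.inter_right ?_
    exact isClosed_eq hf continuous_const
  have hMe : IsExtreme ℝ K M := by
    refine ⟨fun z hz => hz.1, ?_⟩
    intro a ha b hb z hz hzab
    obtain ⟨s, t, hs, ht, hst, rfl⟩ := hzab
    refine ⟨ha, ?_⟩
    have h1 : f (s • a + t • b) ≤ s * f a + t * f b := by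
      simpa using hconv.2 (Set.mem_univ a) (Set.mem_univ b) hs.le ht.le hst
    have h2 : f a ≤ f y := hy ha
    have h3 : f b ≤ f y := hy hb
    have h4 : f (s • a + t • b) = f y := hz.2
    refine le_antisymm h2 ?_
    by_contra hcon
    push Not at hcon
    have : s * f a + t * f b < f y := by
      have h5 : s * f a < s * f y := mul_lt_mul_of_pos_left hcon hs
      have h6 : t * f b ≤ t * f y := mul_le_mul_of_nonneg_left h3 ht.le
      have h7 : s * f y + t * f y = f y := by rw [← add_mul, hst, one_mul]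
      linarith
    linarith
  obtain ⟨z, hz⟩ := hMc.extremePoints_nonempty ⟨y, hyK, rfl⟩
  refine ⟨z, hMe.extremePoints_subset_extremePoints hz, ?_⟩
  rw [(hz.1 : z ∈ M).2]
  exact hy hx

/-- An extreme point of a section of the cube by a subspace `F` has at least `dim F` coordinates
equal to `±1`; in particular `dim F ≤ |x|²`. -/
lemma finrank_le_of_extreme (F : Submodule ℝ (EuclideanSpace ℝ ι)) {x : EuclideanSpace ℝ ι}
    (hx : x ∈ ((F : Set (EuclideanSpace ℝ ι)) ∩ cube ι).extremePoints ℝ) :
    (finrank ℝ F : ℝ) ≤ ‖x‖ ^ 2 := by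
  classical
  set T : Finset ι := Finset.univ.filter fun i => |x i| = 1 with hT
  have key : finrank ℝ F ≤ T.card := by
    by_contra hcon
    push Not at hcon
    -- a nonzero vector of `F` vanishing on `T`
    let L : F →ₗ[ℝ] (T → ℝ) :=
      LinearMap.pi fun i => (EuclideanSpace.proj (𝕜 := ℝ) (i : ι)).toLinearMap ∘ₗ F.subtype
    have hker : LinearMap.ker L ≠ ⊥ := by
      apply LinearMap.ker_ne_bot_of_finrank_lt
      simpa using hcon
    obtain ⟨v, hv, hv0⟩ := (Submodule.ne_bot_iff _).1 hker
    have hvT : ∀ i ∈ T, (v : EuclideanSpace ℝ ι) i = 0 := by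
      intro i hi
      have := congrFun (LinearMap.mem_ker.1 hv) ⟨i, hi⟩
      simpa [L] using this
    have hv0' : (v : EuclideanSpace ℝ ι) ≠ 0 := fun h => hv0 (Subtype.ext h)
    -- small step
    obtain ⟨δ, hδ, hstep⟩ : ∃ δ : ℝ, 0 < δ ∧ ∀ i, |x i| + δ * |(v : EuclideanSpace ℝ ι) i| ≤ 1 ∨
        (v : EuclideanSpace ℝ ι) i = 0 := by
      set S : Finset ι := Finset.univ.filter fun i => i ∉ T with hS
      have hlt : ∀ i ∈ S, |x i| < 1 := by
        intro i hi
        have h1 : |x i| ≤ 1 := hx.1.2 i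
        have h2 : i ∉ T := (Finset.mem_filter.1 hi).2
        have h3 : |x i| ≠ 1 := fun h => h2 (by simp [hT, h])
        exact lt_of_le_of_ne h1 h3
      have : ∃ δ : ℝ, 0 < δ ∧ ∀ i ∈ S, |x i| + δ * |(v : EuclideanSpace ℝ ι) i| ≤ 1 := by
        have hgen : ∀ S' : Finset ι, (∀ i ∈ S', |x i| < 1) →
            ∃ δ : ℝ, 0 < δ ∧ ∀ i ∈ S', |x i| + δ * |(v : EuclideanSpace ℝ ι) i| ≤ 1 := by
          intro S'
          induction S' using Finset.induction_on with
          | empty => intro _; exact ⟨1, one_pos, by simp⟩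
          | insert a s ha ih =>
            intro h
            obtain ⟨δ, hδ, h'⟩ := ih fun i hi => h i (Finset.mem_insert_of_mem hi)
            have ha1 : |x a| < 1 := h a (Finset.mem_insert_self _ _)
            set va := |(v : EuclideanSpace ℝ ι) a| with hva
            have hva0 : 0 ≤ va := abs_nonneg _
            refine ⟨min δ ((1 - |x a|) / (va + 1)), lt_min hδ (by apply div_pos <;> linarith),
              fun i hi => ?_⟩
            rcases Finset.mem_insert.1 hi with rfl | hi
            · have h5 : min δ ((1 - |x i|) / (va + 1)) * va ≤ (1 - |x i|) / (va + 1) * va :=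
                mul_le_mul_of_nonneg_right (min_le_right _ _) hva0
              have h6 : (1 - |x i|) / (va + 1) * va ≤ 1 - |x i| := by
                rw [div_mul_eq_mul_div, div_le_iff₀ (by linarith)]
                nlinarith
              linarith
            · have h5 : min δ ((1 - |x a|) / (va + 1)) * |(v : EuclideanSpace ℝ ι) i| ≤
                  δ * |(v : EuclideanSpace ℝ ι) i| :=
                mul_le_mul_of_nonneg_right (min_le_left _ _) (abs_nonneg _)
              have := h' i hi
              linarith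
        exact hgen S hlt
      obtain ⟨δ, hδ, h⟩ := this
      refine ⟨δ, hδ, fun i => ?_⟩
      by_cases hi : i ∈ T
      · exact Or.inr (hvT i hi)
      · exact Or.inl (h i (by simp [hS, hi]))
    have hmem : ∀ s : ℝ, |s| = 1 → x + (s * δ) • (v : EuclideanSpace ℝ ι) ∈
        (F : Set (EuclideanSpace ℝ ι)) ∩ cube ι := by
      intro s hs
      refine ⟨F.add_mem hx.1.1 (F.smul_mem _ v.2), fun i => ?_⟩
      have h1 : (x + (s * δ) • (v : EuclideanSpace ℝ ι)) i =
          x i + (s * δ) * (v : EuclideanSpace ℝ ι) i := by simp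
      rw [h1]
      rcases hstep i with h | h
      · calc |x i + (s * δ) * (v : EuclideanSpace ℝ ι) i|
            ≤ |x i| + |(s * δ) * (v : EuclideanSpace ℝ ι) i| := abs_add_le _ _
          _ = |x i| + δ * |(v : EuclideanSpace ℝ ι) i| := by
              rw [abs_mul, abs_mul, hs, abs_of_pos hδ, one_mul]
          _ ≤ 1 := h
      · rw [h, mul_zero, add_zero]; exact hx.1.2 i
    have hseg : x ∈ openSegment ℝ (x + ((1 : ℝ) * δ) • (v : EuclideanSpace ℝ ι))
        (x + ((-1 : ℝ) * δ) • (v : EuclideanSpace ℝ ι)) := by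
      refine ⟨1 / 2, 1 / 2, by norm_num, by norm_num, by norm_num, ?_⟩
      module
    have hxe := hx.2 (hmem 1 (by simp)) (hmem (-1) (by simp)) hseg
    have : ((1 : ℝ) * δ) • (v : EuclideanSpace ℝ ι) = 0 := by simpa using hxe
    rcases smul_eq_zero.1 this with h | h
    · rw [one_mul] at h; exact hδ.ne' h
    · exact hv0' h
  have h2 : (T.card : ℝ) ≤ ‖x‖ ^ 2 := by
    rw [EuclideanSpace.norm_sq_eq]
    calc (T.card : ℝ) = ∑ i ∈ T, (1 : ℝ) := by simp
      _ = ∑ i ∈ T, ‖x i‖ ^ 2 := by
          refine Finset.sum_congr rfl fun i hi => ?_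
          have : |x i| = 1 := (Finset.mem_filter.1 hi).2
          rw [Real.norm_eq_abs, this]; norm_num
      _ ≤ ∑ i, ‖x i‖ ^ 2 :=
          Finset.sum_le_sum_of_subset_of_nonneg (Finset.subset_univ _) fun _ _ _ => by positivity
  exact le_trans (by exact_mod_cast key) h2

/-- The subspace spanned by the first `k` vectors of an orthonormal basis, described by
the vanishing of the later coordinates. -/
def flag {n : ℕ} (b : OrthonormalBasis (Fin n) ℝ (EuclideanSpace ℝ ι)) (k : ℕ) :
    Submodule ℝ (EuclideanSpace ℝ ι) where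
  carrier := {x | ∀ i : Fin n, k ≤ (i : ℕ) → inner ℝ (b i) x = 0}
  add_mem' := by
    intro x y hx hy i hi
    rw [inner_add_right, hx i hi, hy i hi, add_zero]
  zero_mem' := by intro i _; simp
  smul_mem' := by
    intro c x hx i hi
    rw [inner_smul_right, hx i hi, mul_zero]

lemma le_finrank_flag {n : ℕ} (b : OrthonormalBasis (Fin n) ℝ (EuclideanSpace ℝ ι)) {k : ℕ}
    (hk : k ≤ n) : k ≤ finrank ℝ (flag b k) := by
  classical
  have hmem : ∀ j : Fin k, b (Fin.castLE hk j) ∈ flag b k := by
    intro j i hi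
    rw [orthonormal_iff_ite.1 b.orthonormal, if_neg]
    intro h
    have : (i : ℕ) = (j : ℕ) := by rw [h]; rfl
    omega
  have hli : LinearIndependent ℝ (fun j : Fin k => (⟨b (Fin.castLE hk j), hmem j⟩ : flag b k)) := by
    have h1 : LinearIndependent ℝ (fun j : Fin k => b (Fin.castLE hk j)) :=
      b.orthonormal.linearIndependent.comp _ (Fin.castLE_injective hk)
    refine LinearIndependent.of_comp (flag b k).subtype ?_
    exact h1
  simpa using hli.fintype_card_le_finrank

/-- **Chain lemma.** For an orthonormal basis `b` and `μ_0 ≥ μ_1 ≥ … ≥ 0` with `μ_i = 0` for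
`i ≥ k` there is a point `x` of the cube in the span of the first `k` basis vectors with
`∑ μ_i ≤ ∑ μ_i ⟨b_i, x⟩²`. -/
lemma chain {n : ℕ} (b : OrthonormalBasis (Fin n) ℝ (EuclideanSpace ℝ ι)) :
    ∀ k : ℕ, k ≤ n → ∀ μ : Fin n → ℝ, Antitone μ → (∀ i, 0 ≤ μ i) →
      (∀ i : Fin n, k ≤ (i : ℕ) → μ i = 0) →
      ∃ x ∈ cube ι, x ∈ flag b k ∧ ∑ i, μ i ≤ ∑ i, μ i * inner ℝ (b i) x ^ 2 := by
  intro k
  induction k with
  | zero =>
    intro _ μ _ _ hμ0
    refine ⟨0, by simp [cube], Submodule.zero_mem _, ?_⟩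
    have : ∀ i, μ i = 0 := fun i => hμ0 i (Nat.zero_le _)
    simp [this]
  | succ k ih =>
    intro hk μ hanti hnn hμ0
    set j : Fin n := ⟨k, hk⟩ with hj
    set t : ℝ := μ j with ht
    have ht0 : 0 ≤ t := hnn j
    set ν : Fin n → ℝ := fun i => if (i : ℕ) ≤ k then μ i - t else 0 with hν
    have hle : ∀ i : Fin n, (i : ℕ) ≤ k → t ≤ μ i := fun i hi => hanti (by
      show (i : ℕ) ≤ (j : ℕ); exact hi)
    obtain ⟨x, hxc, hxF, hx⟩ := ih (by omega) ν (by
      intro i i' hii'
      show ν i' ≤ ν i
      have hii : (i : ℕ) ≤ (i' : ℕ) := hii'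
      simp only [hν]
      split_ifs with h1 h2 h3
      · linarith [hanti hii']
      · omega
      · linarith [hle i h3]
      · exact le_rfl) (by
      intro i
      simp only [hν]
      split_ifs with h1
      · linarith [hle i h1]
      · exact le_rfl) (by
      intro i hi
      simp only [hν]
      split_ifs with h1
      · have : i = j := Fin.ext (by simp [hj]; omega)
        rw [this, ← ht, sub_self]
      · rfl)
    -- the convex function
    set f : EuclideanSpace ℝ ι → ℝ := fun y => ∑ i, ν i * inner ℝ (b i) y ^ 2 with hf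
    have hνnn : ∀ i, 0 ≤ ν i := by
      intro i
      simp only [hν]
      split_ifs with h1
      · linarith [hle i h1]
      · exact le_rfl
    have hfc : Continuous f := by
      refine continuous_finsetSum _ fun i _ => ?_
      fun_prop
    have hfconv : ConvexOn ℝ Set.univ f := by
      have hone : ∀ i, ConvexOn ℝ Set.univ fun y : EuclideanSpace ℝ ι => inner ℝ (b i) y ^ 2 := by
        intro i
        refine ⟨convex_univ, fun a _ c _ s r hs hr hsr => ?_⟩
        simp only [inner_add_right, inner_smul_right, smul_eq_mul]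
        have : s * inner ℝ (b i) a ^ 2 + r * inner ℝ (b i) c ^ 2 -
            (s * inner ℝ (b i) a + r * inner ℝ (b i) c) ^ 2 =
            s * r * (inner ℝ (b i) a - inner ℝ (b i) c) ^ 2 := by
          have hr' : r = 1 - s := by linarith
          subst hr'; ring
        have h2 : 0 ≤ s * r * (inner ℝ (b i) a - inner ℝ (b i) c) ^ 2 := by positivity
        linarith
      refine ⟨convex_univ, fun a ha c hc s r hs hr hsr => ?_⟩
      simp only [hf, smul_eq_mul, Finset.mul_sum, ← Finset.sum_add_distrib]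
      refine Finset.sum_le_sum fun i _ => ?_
      have h1 := (hone i).2 ha hc hs hr hsr
      simp only [smul_eq_mul] at h1
      calc ν i * inner ℝ (b i) (s • a + r • c) ^ 2
          ≤ ν i * (s * inner ℝ (b i) a ^ 2 + r * inner ℝ (b i) c ^ 2) :=
            mul_le_mul_of_nonneg_left h1 (hνnn i)
        _ = s * (ν i * inner ℝ (b i) a ^ 2) + r * (ν i * inner ℝ (b i) c ^ 2) := by ring
    have hKc : IsCompact ((flag b (k + 1) : Set (EuclideanSpace ℝ ι)) ∩ cube ι) :=
      isCompact_cube.inter_left (Submodule.closed_of_finiteDimensional _)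
    have hxK : x ∈ (flag b (k + 1) : Set (EuclideanSpace ℝ ι)) ∩ cube ι :=
      ⟨fun i hi => hxF i (by omega), hxc⟩
    obtain ⟨z, hz, hxz⟩ := exists_extreme_ge hKc hxK hfc hfconv
    refine ⟨z, hz.1.2, hz.1.1, ?_⟩
    have hz2 : ((k + 1 : ℕ) : ℝ) ≤ ‖z‖ ^ 2 :=
      le_trans (by exact_mod_cast le_finrank_flag b hk) (finrank_le_of_extreme _ hz)
    have hzn : ‖z‖ ^ 2 = ∑ i, inner ℝ (b i) z ^ 2 := by
      rw [← b.sum_sq_norm_inner_right z]
      refine Finset.sum_congr rfl fun i _ => ?_
      rw [Real.norm_eq_abs, sq_abs]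
    -- `μ i = ν i + t` for `i ≤ k`
    have hsplit : ∑ i, μ i * inner ℝ (b i) z ^ 2 = f z + t * ‖z‖ ^ 2 := by
      rw [hzn, Finset.mul_sum, hf, ← Finset.sum_add_distrib]
      refine Finset.sum_congr rfl fun i _ => ?_
      simp only [hν]
      split_ifs with h1
      · ring
      · have : inner ℝ (b i) z = 0 := hz.1.1 i (by omega)
        rw [this, hμ0 i (by omega)]; ring
    have hsplit2 : ∑ i, μ i = ∑ i, ν i + t * ((k + 1 : ℕ) : ℝ) := by
      have h1 : ∀ i : Fin n, μ i = ν i + if (i : ℕ) ≤ k then t else 0 := by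
        intro i
        simp only [hν]
        split_ifs with h1
        · ring
        · rw [hμ0 i (by omega)]; ring
      rw [Finset.sum_congr rfl fun i _ => h1 i, Finset.sum_add_distrib]
      congr 1
      rw [← Finset.sum_filter, Finset.sum_const, nsmul_eq_mul, mul_comm]
      congr 1
      have : (Finset.univ.filter fun i : Fin n => (i : ℕ) ≤ k).card = k + 1 := by
        have h2 : (Finset.univ.filter fun i : Fin n => (i : ℕ) ≤ k) = Finset.Iic j := by
          ext i
          simp [hj, Fin.le_def]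
        rw [h2, Fin.card_Iic]
      rw [this]
    rw [hsplit, hsplit2]
    have h5 : t * ((k + 1 : ℕ) : ℝ) ≤ t * ‖z‖ ^ 2 := mul_le_mul_of_nonneg_left hz2 ht0
    have h6 : ∑ i, ν i ≤ f z := hx.trans hxz
    linarith

end Pool.Agent.MP_4da8b1_gt_H41
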