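import Pool.Agent.Work.MP_4da8b1_gt_helper41.Main

/-!
Which families satisfy the criterion.
-/

open Module
open scoped BigOperators

namespace Pool.Agent.MP_4da8b1_gt_H41

variable {n : ℕ}

lemma Admissible.good {U : Finset (EuclideanSpace ℝ (Fin n))} (h : Admissible U) : Good U := by
  obtain ⟨z, hz, hz', hs⟩ := h
  rcases le_total (1 / 2) (‖z‖ ^ 2) with h1 | h1
  · rw [max_eq_right h1] at hs
    exact Or.inr ⟨z, hz, hz', h1, hs⟩
  · rw [max_eq_left h1] at hs
    exact Or.inl hs

lemma Balanced.two_le_card {V : Finset (EuclideanSpace ℝ (Fin n))} (hV : ∀ u ∈ V, ‖u‖ = 1)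
    (h : Balanced V) : 2 ≤ V.card := by
  obtain ⟨hne, lam, hlam, hsum⟩ := h
  by_contra hcon
  have h1 : V.card = 1 := by
    have := Finset.card_pos.2 hne
    omega
  obtain ⟨x, rfl⟩ := Finset.card_eq_one.1 h1
  have hx := Finset.mem_singleton_self x
  rw [Finset.sum_singleton] at hsum
  have h2 : ‖lam x • x‖ = lam x := by
    rw [norm_smul, hV x hx, mul_one, Real.norm_eq_abs, abs_of_pos (hlam x hx)]
  rw [hsum, norm_zero] at h2
  exact absurd (hlam x hx) (by rw [← h2]; exact lt_irrefl 0)

/-- `0` lies in the convex hull of a balanced set. -/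
lemma Balanced.zero_mem {V : Finset (EuclideanSpace ℝ (Fin n))} (h : Balanced V) :
    (0 : EuclideanSpace ℝ (Fin n)) ∈ convexHull ℝ (V : Set (EuclideanSpace ℝ (Fin n))) := by
  obtain ⟨hne, lam, hlam, hsum⟩ := h
  have hpos : 0 < ∑ u ∈ V, lam u := Finset.sum_pos hlam hne
  have := Finset.centerMass_mem_convexHull V (w := lam) (z := id) (fun u hu => (hlam u hu).le) hpos
    (s := (V : Set (EuclideanSpace ℝ (Fin n)))) (fun u hu => by simpa using hu)
  rw [Finset.centerMass] at this
  simpa [hsum] using this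

/-- Some midpoint in every half-space, for all balanced sets. -/
lemma Balanced.hasShort_of {V : Finset (EuclideanSpace ℝ (Fin n))} (hV : ∀ u ∈ V, ‖u‖ = 1)
    (h : Balanced V) {ρ : ℝ}
    (hρ : ∀ u ∈ V, ∀ v ∈ V, u ≠ v → ‖(1 / 2 : ℝ) • (u + v)‖ ^ 2 ≤ ρ) : HasShort V ρ := by
  have h2 := h.two_le_card hV
  obtain ⟨_, lam, hlam, hsum⟩ := h
  intro a
  obtain ⟨m, w, ⟨u, hu, v, hv, hne, rfl, rfl⟩, h1⟩ := exists_edge hV h2 hlam hsum a
  exact ⟨u, hu, v, hv, hne, h1, hρ u hu v hv hne⟩

lemma norm_mid_sq {u v : EuclideanSpace ℝ (Fin n)} (hu : ‖u‖ = 1) (hv : ‖v‖ = 1) :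
    ‖(1 / 2 : ℝ) • (u + v)‖ ^ 2 = (1 + inner ℝ u v) / 2 := by
  rw [norm_smul, mul_pow, norm_add_sq_real, hu, hv]
  norm_num
  ring

/-- Obtuse balanced sets. -/
lemma admissible_of_obtuse {V : Finset (EuclideanSpace ℝ (Fin n))} (hV : ∀ u ∈ V, ‖u‖ = 1)
    (h : Balanced V) (hO : Obtuse V) : Admissible V := by
  refine ⟨0, h.zero_mem, by rw [neg_zero]; exact h.zero_mem, ?_⟩
  refine h.hasShort_of hV fun u hu v hv hne => le_trans ?_ (le_max_left _ _)
  rw [norm_mid_sq (hV u hu) (hV v hv)]
  linarith [hO u hu v hv hne]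

/-- The three-vector case with an acute angle. -/
lemma admissible_triangle {u₁ u₂ u₃ : EuclideanSpace ℝ (Fin n)} (h1 : ‖u₁‖ = 1) (h2 : ‖u₂‖ = 1)
    (h3 : ‖u₃‖ = 1) {a b c : ℝ} (ha : 0 < a) (hb : 0 < b) (hc : 0 < c)
    (hsum : a • u₁ + b • u₂ + c • u₃ = 0) (hacute : 0 < inner ℝ u₁ u₂)
    {V : Finset (EuclideanSpace ℝ (Fin n))} (hV : V = {u₁, u₂, u₃}) : Admissible V := by
  classical
  have hVn : ∀ u ∈ V, ‖u‖ = 1 := by
    intro u hu
    rw [hV] at hu
    simp only [Finset.mem_insert, Finset.mem_singleton] at hu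
    rcases hu with rfl | rfl | rfl <;> assumption
  have m1 : u₁ ∈ convexHull ℝ (V : Set (EuclideanSpace ℝ (Fin n))) :=
    subset_convexHull ℝ _ (by simp [hV])
  have m2 : u₂ ∈ convexHull ℝ (V : Set (EuclideanSpace ℝ (Fin n))) :=
    subset_convexHull ℝ _ (by simp [hV])
  have m3 : u₃ ∈ convexHull ℝ (V : Set (EuclideanSpace ℝ (Fin n))) :=
    subset_convexHull ℝ _ (by simp [hV])
  have hconv := convex_convexHull ℝ (V : Set (EuclideanSpace ℝ (Fin n)))
  have hab : 0 < a + b := by positivity
  set z : EuclideanSpace ℝ (Fin n) := (a / (a + b)) • u₁ + (b / (a + b)) • u₂ with hz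
  have hzmem : z ∈ convexHull ℝ (V : Set (EuclideanSpace ℝ (Fin n))) :=
    hconv m1 m2 (by positivity) (by positivity) (by field_simp)
  have hzneg : -z = (c / (a + b)) • u₃ := by
    have h4 : c • u₃ = -(a • u₁ + b • u₂) := eq_neg_of_add_eq_zero_right hsum
    have h5 : (c / (a + b)) • u₃ = (1 / (a + b)) • (c • u₃) := by
      rw [smul_smul]; congr 1; field_simp
    rw [h5, h4, hz, smul_neg, smul_add, smul_smul, smul_smul]
    congr 3 <;> field_simp
  have hcle : c ≤ a + b := by
    have h4 : c • u₃ = -(a • u₁ + b • u₂) := eq_neg_of_add_eq_zero_right hsum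
    have h5 : ‖c • u₃‖ = c := by rw [norm_smul, h3, mul_one, Real.norm_eq_abs, abs_of_pos hc]
    rw [← h5, h4, norm_neg]
    refine (norm_add_le _ _).trans (le_of_eq ?_)
    rw [norm_smul, norm_smul, h1, h2, mul_one, mul_one, Real.norm_eq_abs, Real.norm_eq_abs,
      abs_of_pos ha, abs_of_pos hb]
  have hcab : c / (a + b) ≤ 1 := by rw [div_le_one hab]; exact hcle
  have hbal : Balanced V := by
    refine ⟨⟨u₁, by simp [hV]⟩, ?_⟩
    -- if two of the vectors coincide the weights have to be added
    refine ⟨fun u => (if u = u₁ then a else 0) + (if u = u₂ then b else 0) +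
      (if u = u₃ then c else 0), ?_, ?_⟩
    · intro u hu
      rw [hV] at hu
      simp only [Finset.mem_insert, Finset.mem_singleton] at hu
      rcases hu with rfl | rfl | rfl
      · have e1 : 0 ≤ (if u = u₂ then b else 0) := by split_ifs <;> linarith
        have e2 : 0 ≤ (if u = u₃ then c else 0) := by split_ifs <;> linarith
        simp only [if_true]
        linarith
      · have e1 : 0 ≤ (if u = u₁ then a else 0) := by split_ifs <;> linarith
        have e2 : 0 ≤ (if u = u₃ then c else 0) := by split_ifs <;> linarith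
        simp only [if_true]
        linarith
      · have e1 : 0 ≤ (if u = u₁ then a else 0) := by split_ifs <;> linarith
        have e2 : 0 ≤ (if u = u₂ then b else 0) := by split_ifs <;> linarith
        simp only [if_true]
        linarith
    · have i1 : u₁ ∈ V := by simp [hV]
      have i2 : u₂ ∈ V := by simp [hV]
      have i3 : u₃ ∈ V := by simp [hV]
      simp only [add_smul, ite_smul, zero_smul, Finset.sum_add_distrib, Finset.sum_ite_eq', i1, i2,
        i3, if_true]
      exact hsum
  have hzero := hbal.zero_mem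
  have hznegmem : -z ∈ convexHull ℝ (V : Set (EuclideanSpace ℝ (Fin n))) := by
    rw [hzneg]
    have := hconv m3 hzero (a := c / (a + b)) (b := 1 - c / (a + b)) (by positivity)
      (by linarith) (by ring)
    simpa using this
  -- the norm of `z`
  set p : ℝ := inner ℝ u₁ u₂ with hp
  have hznorm : (1 + p) / 2 ≤ ‖z‖ ^ 2 := by
    have h4 : z = (1 / 2 : ℝ) • (u₁ + u₂) + ((a - b) / (2 * (a + b))) • (u₁ - u₂) := by
      rw [hz, smul_add, smul_sub]
      have e1 : a / (a + b) = 1 / 2 + (a - b) / (2 * (a + b)) := by field_simp; ring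
      have e2 : b / (a + b) = 1 / 2 - (a - b) / (2 * (a + b)) := by field_simp; ring
      rw [e1, e2]
      module
    have h5 : inner ℝ ((1 / 2 : ℝ) • (u₁ + u₂)) (((a - b) / (2 * (a + b))) • (u₁ - u₂)) = 0 := by
      rw [inner_smul_left, inner_smul_right, inner_add_left, inner_sub_right, inner_sub_right,
        real_inner_self_eq_norm_sq, real_inner_self_eq_norm_sq, h1, h2, real_inner_comm u₁ u₂]
      ring
    rw [h4, norm_add_sq_real, h5, norm_mid_sq h1 h2]
    have : 0 ≤ ‖((a - b) / (2 * (a + b))) • (u₁ - u₂)‖ ^ 2 := by positivity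
    linarith
  -- the other two inner products are negative
  have h13 : inner ℝ u₁ u₃ ≤ 0 := by
    have h4 : a * inner ℝ u₁ u₁ + b * inner ℝ u₁ u₂ + c * inner ℝ u₁ u₃ = 0 := by
      have := congrArg (fun x => inner ℝ u₁ x) hsum
      simpa only [inner_add_right, inner_smul_right, inner_zero_right] using this
    rw [real_inner_self_eq_norm_sq, h1] at h4
    by_contra hcon
    push Not at hcon
    have : 0 < b * inner ℝ u₁ u₂ := mul_pos hb hacute
    have : 0 < c * inner ℝ u₁ u₃ := mul_pos hc hcon
    linarith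
  have h23 : inner ℝ u₂ u₃ ≤ 0 := by
    have h4 : a * inner ℝ u₂ u₁ + b * inner ℝ u₂ u₂ + c * inner ℝ u₂ u₃ = 0 := by
      have := congrArg (fun x => inner ℝ u₂ x) hsum
      simpa only [inner_add_right, inner_smul_right, inner_zero_right] using this
    rw [real_inner_self_eq_norm_sq, h2, real_inner_comm] at h4
    by_contra hcon
    push Not at hcon
    have : 0 < a * inner ℝ u₁ u₂ := mul_pos ha hacute
    have : 0 < c * inner ℝ u₂ u₃ := mul_pos hc hcon
    linarith
  refine ⟨z, hzmem, hznegmem, hbal.hasShort_of hVn fun u hu v hv hne => ?_⟩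
  rw [norm_mid_sq (hVn u hu) (hVn v hv)]
  refine le_trans ?_ (le_max_right _ _)
  refine le_trans ?_ hznorm
  have hle : inner ℝ u v ≤ p := by
    rw [hV] at hu hv
    simp only [Finset.mem_insert, Finset.mem_singleton] at hu hv
    rcases hu with rfl | rfl | rfl <;> rcases hv with rfl | rfl | rfl
    · exact absurd rfl hne
    · exact le_rfl
    · linarith
    · rw [real_inner_comm]
    · exact absurd rfl hne
    · linarith
    · rw [real_inner_comm]; linarith
    · rw [real_inner_comm]; linarith
    · exact absurd rfl hne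
  linarith

/-- Balanced sets with at most three members. -/
lemma admissible_of_card {V : Finset (EuclideanSpace ℝ (Fin n))} (hV : ∀ u ∈ V, ‖u‖ = 1)
    (h : Balanced V) (hc : V.card ≤ 3) : Admissible V := by
  classical
  by_cases hO : Obtuse V
  · exact admissible_of_obtuse hV h hO
  have h2 := h.two_le_card hV
  obtain ⟨hne, lam, hlam, hsum⟩ := h
  have hOO : ∃ u ∈ V, ∃ v ∈ V, u ≠ v ∧ 0 < inner ℝ u v := by
    unfold Obtuse at hO
    push Not at hO
    exact hO
  obtain ⟨u, hu, v, hv, hne', hpos⟩ := hOO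
  have hcard : V.card = 2 ∨ V.card = 3 := by omega
  rcases hcard with hcard | hcard
  · -- two members: they are opposite
    exfalso
    have hVe : V = {u, v} := by
      symm
      refine Finset.eq_of_subset_of_card_le ?_ ?_
      · intro x hx
        simp only [Finset.mem_insert, Finset.mem_singleton] at hx
        rcases hx with rfl | rfl <;> assumption
      · rw [Finset.card_pair hne', hcard]
    rw [hVe, Finset.sum_pair hne'] at hsum
    have h4 : lam u * inner ℝ u u + lam v * inner ℝ u v = 0 := by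
      have := congrArg (fun x => inner ℝ u x) hsum
      simpa only [inner_add_right, inner_smul_right, inner_zero_right] using this
    rw [real_inner_self_eq_norm_sq, hV u hu] at h4
    have := hlam u hu
    have : 0 < lam v * inner ℝ u v := mul_pos (hlam v hv) hpos
    linarith
  · have h5 : ((V.erase u).erase v).card = 1 := by
      rw [Finset.card_erase_of_mem, Finset.card_erase_of_mem hu, hcard]
      exact Finset.mem_erase.2 ⟨hne'.symm, hv⟩
    obtain ⟨x, hx⟩ := Finset.card_eq_one.1 h5
    have hxm : x ∈ (V.erase u).erase v := by rw [hx]; exact Finset.mem_singleton_self x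
    have hxv : x ≠ v := Finset.ne_of_mem_erase hxm
    have hxu : x ≠ u := Finset.ne_of_mem_erase (Finset.mem_of_mem_erase hxm)
    have hxV : x ∈ V := Finset.mem_of_mem_erase (Finset.mem_of_mem_erase hxm)
    have hVe : V = {u, v, x} := by
      symm
      refine Finset.eq_of_subset_of_card_le ?_ ?_
      · intro y hy
        simp only [Finset.mem_insert, Finset.mem_singleton] at hy
        rcases hy with rfl | rfl | rfl <;> assumption
      · rw [hcard, Finset.card_eq_three.2 ⟨u, v, x, hne', hxu.symm, hxv.symm, rfl⟩]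
    refine admissible_triangle (hV u hu) (hV v hv) (hV x hxV) (hlam u hu) (hlam v hv)
      (hlam x hxV) ?_ hpos hVe
    rw [hVe, Finset.sum_insert (by simp [hne', hxu.symm]), Finset.sum_pair hxv.symm] at hsum
    rw [add_assoc]
    exact hsum

/-- The criterion is inherited by larger sets. -/
lemma Admissible.mono {U V : Finset (EuclideanSpace ℝ (Fin n))} (h : Admissible V)
    (hVU : V ⊆ U) : Admissible U := by
  obtain ⟨z, hz, hz', hs⟩ := h
  have h1 : convexHull ℝ (V : Set (EuclideanSpace ℝ (Fin n))) ⊆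
      convexHull ℝ (U : Set (EuclideanSpace ℝ (Fin n))) :=
    convexHull_mono (by exact_mod_cast hVU)
  exact ⟨z, h1 hz, h1 hz', hs.mono hVU le_rfl⟩

end Pool.Agent.MP_4da8b1_gt_H41
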