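import Mathlib

/-!
# Definitions for `MP_4da8b1_gt` (sums of unit vectors drawn from `n + 1` balanced families)
-/

namespace Pool.Agent.MP_4da8b1_gt_H41

/-- A family as in the problem: `U` is a set of unit vectors of `ℝⁿ` with `2 ≤ |U| ≤ n + 1` such
that `0` is a combination of the members of `U` with all coefficients strictly positive. -/
structure IsFamily {n : ℕ} (U : Finset (EuclideanSpace ℝ (Fin n))) : Prop where
  norm_eq_one : ∀ u ∈ U, ‖u‖ = 1
  two_le_card : 2 ≤ U.card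
  card_le : U.card ≤ n + 1
  balanced : ∃ lam : EuclideanSpace ℝ (Fin n) → ℝ,
    (∀ u ∈ U, 0 < lam u) ∧ ∑ u ∈ U, lam u • u = 0

/-- The bound `M(U_1, …, U_{n+1}; c) ≥ r`: some choice of one vector from each family has its sum
at distance at least `r` from `c`. -/
def FarSum {n : ℕ} (U : Fin (n + 1) → Finset (EuclideanSpace ℝ (Fin n)))
    (c : EuclideanSpace ℝ (Fin n)) (r : ℝ) : Prop :=
  ∃ u : Fin (n + 1) → EuclideanSpace ℝ (Fin n), (∀ i, u i ∈ U i) ∧ r ≤ ‖∑ i, u i - c‖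

/-- `V` is a nonempty set whose members have a vanishing combination with all coefficients
strictly positive. -/
def Balanced {n : ℕ} (V : Finset (EuclideanSpace ℝ (Fin n))) : Prop :=
  V.Nonempty ∧ ∃ lam : EuclideanSpace ℝ (Fin n) → ℝ,
    (∀ u ∈ V, 0 < lam u) ∧ ∑ u ∈ V, lam u • u = 0

/-- Two different members of `V` never form an acute angle. -/
def Obtuse {n : ℕ} (V : Finset (EuclideanSpace ℝ (Fin n))) : Prop :=
  ∀ u ∈ V, ∀ v ∈ V, u ≠ v → inner ℝ u v ≤ 0

/-- In every closed half-space `{x | ⟪a, x⟫ ≤ 0}` there is the midpoint of two different members of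
`U`, of squared norm at most `ρ`. -/
def HasShort {n : ℕ} (U : Finset (EuclideanSpace ℝ (Fin n))) (ρ : ℝ) : Prop :=
  ∀ a : EuclideanSpace ℝ (Fin n), ∃ u ∈ U, ∃ v ∈ U, u ≠ v ∧
    inner ℝ a ((1 / 2 : ℝ) • (u + v)) ≤ 0 ∧ ‖(1 / 2 : ℝ) • (u + v)‖ ^ 2 ≤ ρ

/-- The criterion: for some `z` with `z` and `-z` in the convex hull of `U`, every closed half-space
`{x | ⟪a, x⟫ ≤ 0}` contains the midpoint of two different members of `U` of squared norm at most
`max (1/2) |z|²`. -/
def Admissible {n : ℕ} (U : Finset (EuclideanSpace ℝ (Fin n))) : Prop :=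
  ∃ z : EuclideanSpace ℝ (Fin n),
    z ∈ convexHull ℝ (U : Set (EuclideanSpace ℝ (Fin n))) ∧
    -z ∈ convexHull ℝ (U : Set (EuclideanSpace ℝ (Fin n))) ∧ HasShort U (max (1 / 2) (‖z‖ ^ 2))

end Pool.Agent.MP_4da8b1_gt_H41
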