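import Pool.Agent.Work.MP_4da8b1_gt_helper41.Classify

/-!
The final statements.
-/

open Module
open scoped BigOperators

namespace Pool.Agent.MP_4da8b1_gt_H41

variable {n : ℕ}

/-- Families with short midpoints, with bounds `ρ_i + ρ_j ≤ 1`. -/
theorem main_short (U : Fin (n + 1) → Finset (EuclideanSpace ℝ (Fin n)))
    (hU : ∀ i, ∀ u ∈ U i, ‖u‖ = 1) (ρ : Fin (n + 1) → ℝ) (hs : ∀ i, HasShort (U i) (ρ i))
    (hρ : ∀ i j, i ≠ j → ρ i + ρ j ≤ 1) (c : EuclideanSpace ℝ (Fin n)) :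
    ∃ u : Fin (n + 1) → EuclideanSpace ℝ (Fin n), (∀ i, u i ∈ U i) ∧
      (n : ℝ) + 2 + ‖c‖ ^ 2 ≤ ‖∑ i, u i - c‖ ^ 2 := by
  classical
  have key : ∀ s : Finset (Fin (n + 1)), ∃ m w : Fin (n + 1) → EuclideanSpace ℝ (Fin n),
      (∀ i ∈ s, IsEdge (U i) (m i) (w i) ∧ ‖m i‖ ^ 2 ≤ ρ i) ∧ (∀ i, i ∉ s → m i = 0) ∧
      ‖c‖ ^ 2 + ∑ i, ‖m i‖ ^ 2 ≤ ‖c - ∑ i, m i‖ ^ 2 := by
    intro s
    induction s using Finset.induction_on with
    | empty => exact ⟨fun _ => 0, fun _ => 0, by simp, by simp, by simp⟩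
    | insert j s hj ih =>
      obtain ⟨m, w, h1, h2, h3⟩ := ih
      obtain ⟨e, f, hef, hin, he2⟩ := (hs j).edge (c - ∑ i, m i)
      obtain ⟨h4, h5⟩ := update_bound c m j (h2 j hj) e hin
      refine ⟨Function.update m j e, Function.update w j f, ?_, ?_, ?_⟩
      · intro i hi
        by_cases hij : i = j
        · subst hij
          rw [Function.update_self, Function.update_self]
          exact ⟨hef, he2⟩
        · rw [Function.update_of_ne hij, Function.update_of_ne hij]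
          exact h1 i ((Finset.mem_insert.1 hi).resolve_left hij)
      · intro i hi
        rw [Finset.mem_insert, not_or] at hi
        rw [Function.update_of_ne hi.1]
        exact h2 i hi.2
      · rw [h5]; linarith
  obtain ⟨m, w, h1, _, hS⟩ := key Finset.univ
  have hE : ∀ i, IsEdge (U i) (m i) (w i) := fun i => (h1 i (Finset.mem_univ i)).1
  have hm : ∀ i, ‖m i‖ ^ 2 ≤ ρ i := fun i => (h1 i (Finset.mem_univ i)).2
  refine of_chords U hU c m w (fun i => (hE i).add_mem) (fun i => (hE i).sub_mem)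
    (fun i => (hE i).orth (hU i)) hS (fun i => ?_) (fun i j hij => ?_)
  · have h4 : ‖m i‖ ^ 2 ≤ ∑ i, ‖m i‖ ^ 2 :=
      Finset.single_le_sum (f := fun i => ‖m i‖ ^ 2) (fun _ _ => by positivity)
        (Finset.mem_univ i)
    have h5 : 0 ≤ ‖c‖ ^ 2 := by positivity
    linarith [(hE i).norm_add (hU i)]
  · linarith [(hE i).norm_add (hU i), (hE j).norm_add (hU j), hm i, hm j, hρ i j hij]

lemma FarSum.of_sq {U : Fin (n + 1) → Finset (EuclideanSpace ℝ (Fin n))}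
    {c : EuclideanSpace ℝ (Fin n)} {r : ℝ}
    (h : ∃ u : Fin (n + 1) → EuclideanSpace ℝ (Fin n), (∀ i, u i ∈ U i) ∧
      r ≤ ‖∑ i, u i - c‖ ^ 2) : FarSum U c (√r) := by
  obtain ⟨u, hu, hle⟩ := h
  exact ⟨u, hu, Real.sqrt_le_iff.2 ⟨norm_nonneg _, hle⟩⟩

lemma IsFamily.toBalanced {U : Finset (EuclideanSpace ℝ (Fin n))} (h : IsFamily U) :
    Balanced U :=
  ⟨Finset.card_pos.1 (by have := h.two_le_card; omega), h.balanced⟩

/-- every balanced set has a midpoint in each half-space -/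
lemma Balanced.hasShort_one {V : Finset (EuclideanSpace ℝ (Fin n))} (hV : ∀ u ∈ V, ‖u‖ = 1)
    (h : Balanced V) : HasShort V 1 := by
  refine h.hasShort_of hV fun u hu v hv _ => ?_
  rw [norm_mid_sq (hV u hu) (hV v hv)]
  have := real_inner_le_norm u v
  rw [hV u hu, hV v hv] at this
  linarith

lemma hasShort_zero_of_pair {V : Finset (EuclideanSpace ℝ (Fin n))}
    {v : EuclideanSpace ℝ (Fin n)} (hv : ‖v‖ = 1) (h1 : v ∈ V) (h2 : -v ∈ V) : HasShort V 0 := by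
  intro a
  refine ⟨v, h1, -v, h2, ?_, by simp, by simp⟩
  intro h
  have h3 : v = 0 := by
    have h4 : v + v = 0 := by nth_rewrite 2 [h]; exact add_neg_cancel v
    have h5 : (2 : ℝ) • v = 0 := by rw [two_smul]; exact h4
    exact (smul_eq_zero.1 h5).resolve_left (by norm_num)
  rw [h3, norm_zero] at hv
  exact zero_ne_one hv

/-- **All the results on Q1.** -/
theorem main_all :
    (∀ (n : ℕ) (U : Fin (n + 1) → Finset (EuclideanSpace ℝ (Fin n))), (∀ i, IsFamily (U i)) →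
      (∀ i, Admissible (U i)) → ∀ c, FarSum U c (√((n : ℝ) + 2 + ‖c‖ ^ 2))) ∧
    (∀ (n : ℕ) (U : Fin (n + 1) → Finset (EuclideanSpace ℝ (Fin n))), (∀ i, IsFamily (U i)) →
      (∀ i, ∃ V ⊆ U i, Balanced V ∧ (V.card ≤ 3 ∨ Obtuse V)) →
      ∀ c, FarSum U c (√((n : ℝ) + 2 + ‖c‖ ^ 2))) ∧
    (∀ n : ℕ, n ≤ 2 → ∀ U : Fin (n + 1) → Finset (EuclideanSpace ℝ (Fin n)),
      (∀ i, IsFamily (U i)) → ∀ c, FarSum U c (√((n : ℝ) + 2 + ‖c‖ ^ 2))) ∧
    (∀ (n : ℕ) (U : Fin (n + 1) → Finset (EuclideanSpace ℝ (Fin n))), (∀ i, IsFamily (U i)) →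
      ∀ ρ : Fin (n + 1) → ℝ, (∀ i, HasShort (U i) (ρ i)) → (∀ i j, i ≠ j → ρ i + ρ j ≤ 1) →
      ∀ c, FarSum U c (√((n : ℝ) + 2 + ‖c‖ ^ 2))) ∧
    (∀ (n : ℕ) (U : Fin (n + 1) → Finset (EuclideanSpace ℝ (Fin n))), (∀ i, IsFamily (U i)) →
      ∀ i₀, (∀ i, i ≠ i₀ → ∃ v ∈ U i, -v ∈ U i) →
      ∀ c, FarSum U c (√((n : ℝ) + 2 + ‖c‖ ^ 2))) := by
  have h2 : ∀ (n : ℕ) (U : Fin (n + 1) → Finset (EuclideanSpace ℝ (Fin n))),
      (∀ i, IsFamily (U i)) → (∀ i, ∃ V ⊆ U i, Balanced V ∧ (V.card ≤ 3 ∨ Obtuse V)) →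
      ∀ c, FarSum U c (√((n : ℝ) + 2 + ‖c‖ ^ 2)) := by
    intro n U hU hV c
    refine FarSum.of_sq (main_good U (fun i => (hU i).norm_eq_one) (fun i => ?_) c)
    obtain ⟨V, hVU, hb, h⟩ := hV i
    have hVn : ∀ u ∈ V, ‖u‖ = 1 := fun u hu => (hU i).norm_eq_one u (hVU hu)
    rcases h with h | h
    · exact ((admissible_of_card hVn hb h).mono hVU).good
    · exact ((admissible_of_obtuse hVn hb h).mono hVU).good
  have h4 : ∀ (n : ℕ) (U : Fin (n + 1) → Finset (EuclideanSpace ℝ (Fin n))),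
      (∀ i, IsFamily (U i)) → ∀ ρ : Fin (n + 1) → ℝ, (∀ i, HasShort (U i) (ρ i)) →
      (∀ i j, i ≠ j → ρ i + ρ j ≤ 1) → ∀ c, FarSum U c (√((n : ℝ) + 2 + ‖c‖ ^ 2)) :=
    fun n U hU ρ hs hρ c =>
      FarSum.of_sq (main_short U (fun i => (hU i).norm_eq_one) ρ hs hρ c)
  refine ⟨?_, h2, ?_, h4, ?_⟩
  · intro n U hU hadm c
    exact FarSum.of_sq (main_good U (fun i => (hU i).norm_eq_one) (fun i => (hadm i).good) c)
  · intro n hn U hU c
    refine h2 n U hU (fun i => ⟨U i, Finset.Subset.refl _, (hU i).toBalanced, Or.inl ?_⟩) c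
    have := (hU i).card_le
    omega
  · intro n U hU i₀ hp c
    classical
    refine h4 n U hU (fun i => if i = i₀ then 1 else 0) (fun i => ?_) (fun i j hij => ?_) c
    · by_cases hi : i = i₀
      · subst hi
        simp only [if_true]
        exact (hU _).toBalanced.hasShort_one (hU _).norm_eq_one
      · simp only [hi, if_false]
        obtain ⟨v, hv, hv'⟩ := hp i hi
        exact hasShort_zero_of_pair ((hU i).norm_eq_one v hv) hv hv'
    · by_cases hi : i = i₀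
      · subst hi
        simp [hij.symm]
      · simp only [hi, if_false]
        split_ifs <;> norm_num

end Pool.Agent.MP_4da8b1_gt_H41
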