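import Pool.Agent.Work.MP_4da8b1_gt_helper41.Select

open Module
open scoped BigOperators

namespace Pool.Agent.MP_4da8b1_gt_H41

variable {n : ℕ}

/-- **Main theorem for good families.** -/
theorem main_good (U : Fin (n + 1) → Finset (EuclideanSpace ℝ (Fin n)))
    (hU : ∀ i, ∀ u ∈ U i, ‖u‖ = 1) (hgood : ∀ i, Good (U i)) (c : EuclideanSpace ℝ (Fin n)) :
    ∃ u : Fin (n + 1) → EuclideanSpace ℝ (Fin n), (∀ i, u i ∈ U i) ∧
      (n : ℝ) + 2 + ‖c‖ ^ 2 ≤ ‖∑ i, u i - c‖ ^ 2 := by
  classical
  have hz' : ∀ i, ∃ z, HasShort (U i) (1 / 2) ∨ HasCentral (U i) z := by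
    intro i
    rcases hgood i with h | ⟨z, hz⟩
    · exact ⟨0, Or.inl h⟩
    · exact ⟨z, Or.inr hz⟩
  choose z hz using hz'
  set L : Fin (n + 1) → EuclideanSpace ℝ (Fin n) → EuclideanSpace ℝ (Fin n) → Prop :=
    fun i m w => IsEdge (U i) m w ∧ ‖m‖ ^ 2 ≤ 1 / 2 with hL
  set P : Fin (n + 1) → EuclideanSpace ℝ (Fin n) → EuclideanSpace ℝ (Fin n) → Prop :=
    fun i m w => L i m w ∨ (HasCentral (U i) (z i) ∧ m = 0 ∧ w = z i) with hP
  -- facts on `P`
  have hPadd : ∀ i m w, P i m w →
      m + w ∈ convexHull ℝ (U i : Set (EuclideanSpace ℝ (Fin n))) := by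
    rintro i m w (h | ⟨h, rfl, rfl⟩)
    · exact h.1.add_mem
    · rw [zero_add]; exact h.1
  have hPsub : ∀ i m w, P i m w →
      m - w ∈ convexHull ℝ (U i : Set (EuclideanSpace ℝ (Fin n))) := by
    rintro i m w (h | ⟨h, rfl, rfl⟩)
    · exact h.1.sub_mem
    · rw [zero_sub]; exact h.2.1
  have hPorth : ∀ i m w, P i m w → inner ℝ m w = 0 := by
    rintro i m w (h | ⟨h, rfl, rfl⟩)
    · exact h.1.orth (hU i)
    · exact inner_zero_left _
  have hPhalf : ∀ i m w, P i m w → 1 / 2 ≤ ‖w‖ ^ 2 := by
    rintro i m w (h | ⟨h, rfl, rfl⟩)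
    · have := h.1.norm_add (hU i)
      linarith [h.2]
    · exact h.2.2.1
  -- selections
  set Sel : (Fin (n + 1) → EuclideanSpace ℝ (Fin n)) → (Fin (n + 1) → EuclideanSpace ℝ (Fin n)) →
    Prop := fun m w => (∀ i, P i (m i) (w i)) ∧
      ‖c‖ ^ 2 + ∑ i, ‖m i‖ ^ 2 ≤ ‖c - ∑ i, m i‖ ^ 2 with hSel
  have hexS : ∃ m w, Sel m w := by
    have key : ∀ s : Finset (Fin (n + 1)), ∃ m w : Fin (n + 1) → EuclideanSpace ℝ (Fin n),
        (∀ i ∈ s, P i (m i) (w i)) ∧ (∀ i, i ∉ s → m i = 0) ∧
        ‖c‖ ^ 2 + ∑ i, ‖m i‖ ^ 2 ≤ ‖c - ∑ i, m i‖ ^ 2 := by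
      intro s
      induction s using Finset.induction_on with
      | empty => exact ⟨fun _ => 0, fun _ => 0, by simp, by simp, by simp⟩
      | insert j s hj ih =>
        obtain ⟨m, w, h1, h2, h3⟩ := ih
        rcases hz j with hO | hT
        · obtain ⟨e, f, hef, hin, he2⟩ := hO.edge (c - ∑ i, m i)
          obtain ⟨h4, h5⟩ := update_bound c m j (h2 j hj) e hin
          refine ⟨Function.update m j e, Function.update w j f, ?_, ?_, ?_⟩
          · intro i hi
            by_cases hij : i = j
            · subst hij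
              rw [Function.update_self, Function.update_self]
              exact Or.inl ⟨hef, he2⟩
            · rw [Function.update_of_ne hij, Function.update_of_ne hij]
              exact h1 i ((Finset.mem_insert.1 hi).resolve_left hij)
          · intro i hi
            rw [Finset.mem_insert, not_or] at hi
            rw [Function.update_of_ne hi.1]
            exact h2 i hi.2
          · rw [h5]; linarith
        · refine ⟨m, Function.update w j (z j), ?_, ?_, h3⟩
          · intro i hi
            by_cases hij : i = j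
            · subst hij
              rw [Function.update_self]
              exact Or.inr ⟨hT, h2 i hj, rfl⟩
            · rw [Function.update_of_ne hij]
              exact h1 i ((Finset.mem_insert.1 hi).resolve_left hij)
          · intro i hi
            rw [Finset.mem_insert, not_or] at hi
            exact h2 i hi.2
    obtain ⟨m, w, h1, _, h3⟩ := key Finset.univ
    exact ⟨m, w, fun i => h1 i (Finset.mem_univ i), h3⟩
  -- number of families which do not use a long edge
  set cnt : (Fin (n + 1) → EuclideanSpace ℝ (Fin n)) → (Fin (n + 1) → EuclideanSpace ℝ (Fin n)) →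
    ℕ := fun m w => (Finset.univ.filter fun i => ¬ L i (m i) (w i)).card with hcnt
  have hexk : ∃ k, ∃ m w, Sel m w ∧ cnt m w = k := by
    obtain ⟨m, w, h⟩ := hexS
    exact ⟨_, m, w, h, rfl⟩
  obtain ⟨m, w, hsel, hck⟩ := Nat.find_spec hexk
  have hmin : ∀ m' w', Sel m' w' → cnt m w ≤ cnt m' w' := by
    intro m' w' h
    rw [hck]
    exact Nat.find_min' hexk ⟨m', w', h, rfl⟩
  obtain ⟨hPmw, hS⟩ := hsel
  set A := ‖c - ∑ i, m i‖ ^ 2 with hA
  by_cases hA2 : 1 / 2 ≤ A
  · refine of_chords U hU c m w (fun i => hPadd i _ _ (hPmw i)) (fun i => hPsub i _ _ (hPmw i))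
      (fun i => hPorth i _ _ (hPmw i)) hS (fun i => ?_) (fun i j _ => ?_)
    · have := hPhalf i _ _ (hPmw i)
      rw [← hA]; linarith
    · linarith [hPhalf i _ _ (hPmw i), hPhalf j _ _ (hPmw j)]
  push Not at hA2
  have hmA : ∀ i, ‖m i‖ ^ 2 ≤ A := by
    intro i
    have h1 : ‖m i‖ ^ 2 ≤ ∑ i, ‖m i‖ ^ 2 :=
      Finset.single_le_sum (f := fun i => ‖m i‖ ^ 2) (fun _ _ => by positivity)
        (Finset.mem_univ i)
    have h2 : 0 ≤ ‖c‖ ^ 2 := by positivity
    linarith
  have hLw : ∀ i, L i (m i) (w i) → 1 - A ≤ ‖w i‖ ^ 2 := by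
    intro i h
    have h1 := h.1.norm_add (hU i)
    linarith [hmA i]
  by_cases hall : ∀ i, 1 - A ≤ ‖w i‖ ^ 2
  · refine of_chords U hU c m w (fun i => hPadd i _ _ (hPmw i)) (fun i => hPsub i _ _ (hPmw i))
      (fun i => hPorth i _ _ (hPmw i)) hS (fun i => ?_) (fun i j _ => ?_)
    · have := hall i
      rw [← hA]; linarith
    · linarith [hPhalf i _ _ (hPmw i), hPhalf j _ _ (hPmw j)]
  push Not at hall
  obtain ⟨i₁, hi₁⟩ := hall
  have hi₁L : ¬ L i₁ (m i₁) (w i₁) := fun h => absurd (hLw i₁ h) (by linarith)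
  obtain ⟨i₀, hi₀mem, hi₀min⟩ :=
    (Finset.univ.filter fun i => ¬ L i (m i) (w i)).exists_min_image (fun i => ‖w i‖ ^ 2)
      ⟨i₁, by simp [hi₁L]⟩
  have hi₀L : ¬ L i₀ (m i₀) (w i₀) := (Finset.mem_filter.1 hi₀mem).2
  have hi₀A : ‖w i₀‖ ^ 2 < 1 - A := lt_of_le_of_lt (hi₀min i₁ (by simp [hi₁L])) hi₁
  obtain ⟨hcen, hm0, hw0⟩ : HasCentral (U i₀) (z i₀) ∧ m i₀ = 0 ∧ w i₀ = z i₀ :=
    (hPmw i₀).resolve_left hi₀L
  obtain ⟨e, f, hef, hin, hez⟩ := hcen.2.2.2.edge (c - ∑ i, m i)
  rw [← hw0] at hez
  obtain ⟨h4, h5⟩ := update_bound c m i₀ hm0 e hin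
  rw [← hA] at h4
  have hef1 := hef.norm_add (hU i₀)
  have hnotL : 1 / 2 < ‖e‖ ^ 2 := by
    by_contra hcon
    push Not at hcon
    have hLnew : L i₀ e f := ⟨hef, hcon⟩
    have hsel' : Sel (Function.update m i₀ e) (Function.update w i₀ f) := by
      refine ⟨fun i => ?_, ?_⟩
      · by_cases hij : i = i₀
        · subst hij
          rw [Function.update_self, Function.update_self]
          exact Or.inl hLnew
        · rw [Function.update_of_ne hij, Function.update_of_ne hij]
          exact hPmw i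
      · rw [h5]; linarith
    have hlt : cnt (Function.update m i₀ e) (Function.update w i₀ f) < cnt m w := by
      refine Finset.card_lt_card ?_
      rw [Finset.ssubset_iff_of_subset]
      · refine ⟨i₀, hi₀mem, ?_⟩
        simp only [Finset.mem_filter, Finset.mem_univ, true_and, not_not, Function.update_self]
        exact hLnew
      · intro i hi
        have hi' := (Finset.mem_filter.1 hi).2
        refine Finset.mem_filter.2 ⟨Finset.mem_univ i, ?_⟩
        by_cases hij : i = i₀
        · subst hij; exact hi₀L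
        · rwa [Function.update_of_ne hij, Function.update_of_ne hij] at hi'
    exact absurd (hmin _ _ hsel') (not_le.2 hlt)
  -- other families have `|w_j|² ≥ |e|²`
  have hother : ∀ j, j ≠ i₀ → ‖e‖ ^ 2 ≤ ‖w j‖ ^ 2 := by
    intro j _
    by_cases hj : L j (m j) (w j)
    · linarith [hLw j hj]
    · exact hez.trans (hi₀min j (by simp [hj]))
  refine of_chords U hU c (Function.update m i₀ e) (Function.update w i₀ f) ?_ ?_ ?_ ?_ ?_ ?_
  · intro i
    by_cases hij : i = i₀
    · subst hij
      rw [Function.update_self, Function.update_self]; exact hef.add_mem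
    · rw [Function.update_of_ne hij, Function.update_of_ne hij]; exact hPadd i _ _ (hPmw i)
  · intro i
    by_cases hij : i = i₀
    · subst hij
      rw [Function.update_self, Function.update_self]; exact hef.sub_mem
    · rw [Function.update_of_ne hij, Function.update_of_ne hij]; exact hPsub i _ _ (hPmw i)
  · intro i
    by_cases hij : i = i₀
    · subst hij
      rw [Function.update_self, Function.update_self]; exact hef.orth (hU _)
    · rw [Function.update_of_ne hij, Function.update_of_ne hij]; exact hPorth i _ _ (hPmw i)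
  · rw [h5]; linarith
  · intro i
    by_cases hij : i = i₀
    · subst hij
      rw [Function.update_self]
      have hA0 : 0 ≤ A := by positivity
      linarith
    · rw [Function.update_of_ne hij]
      have hA0 : 0 ≤ A := by positivity
      linarith [hPhalf i _ _ (hPmw i)]
  · intro i j hne
    by_cases hi : i = i₀
    · subst hi
      rw [Function.update_self, Function.update_of_ne hne.symm]
      linarith [hother j hne.symm]
    · rw [Function.update_of_ne hi]
      by_cases hj : j = i₀
      · subst hj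
        rw [Function.update_self]
        linarith [hother i hi]
      · rw [Function.update_of_ne hj]
        linarith [hPhalf i _ _ (hPmw i), hPhalf j _ _ (hPmw j)]

end Pool.Agent.MP_4da8b1_gt_H41
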