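import Pool.Agent.Work.MP_4da8b1_gt_helper41.Signs

/-!
`n + 2` vectors in `ℝⁿ` with `|v_i|² + |v_j|² ≥ 1` for `i ≠ j`: some signed sum has
`|∑ ± v_i|² ≥ ∑ |v_i|² + 1`.
-/

open Module
open scoped BigOperators

namespace Pool.Agent.MP_4da8b1_gt_H41

variable {ι : Type*} [Fintype ι]

/-- If `q_i ∈ [0,1]`, `∑ q_i ≥ 2` and `R_i + R_j ≥ 1` for `i ≠ j`, `R_i ≥ 0`,
then `∑ q_i R_i ≥ 1`. -/
lemma one_le_sum_mul (q R : ι → ℝ) (hq0 : ∀ i, 0 ≤ q i) (hq1 : ∀ i, q i ≤ 1)
    (hq : 2 ≤ ∑ i, q i) (hR : ∀ i j, i ≠ j → 1 ≤ R i + R j) : 1 ≤ ∑ i, q i * R i := by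
  classical
  by_cases hall : ∀ i, 1 / 2 ≤ R i
  · calc (1 : ℝ) ≤ ∑ i, q i * (1 / 2) := by rw [← Finset.sum_mul]; linarith
      _ ≤ ∑ i, q i * R i :=
        Finset.sum_le_sum fun i _ => mul_le_mul_of_nonneg_left (hall i) (hq0 i)
  · push Not at hall
    obtain ⟨a, ha⟩ := hall
    have h1 : ∑ i, q i * R i = q a * R a + ∑ i ∈ Finset.univ.erase a, q i * R i :=
      (Finset.add_sum_erase _ _ (Finset.mem_univ a)).symm
    have h2 : ∑ i, q i = q a + ∑ i ∈ Finset.univ.erase a, q i :=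
      (Finset.add_sum_erase _ _ (Finset.mem_univ a)).symm
    have h3 : (∑ i ∈ Finset.univ.erase a, q i) * (1 - R a) ≤
        ∑ i ∈ Finset.univ.erase a, q i * R i := by
      rw [Finset.sum_mul]
      refine Finset.sum_le_sum fun i hi => mul_le_mul_of_nonneg_left ?_ (hq0 i)
      linarith [hR i a (Finset.ne_of_mem_erase hi)]
    have h4 : 2 - q a ≤ ∑ i ∈ Finset.univ.erase a, q i := by linarith
    have h5 : (2 - q a) * (1 - R a) ≤ (∑ i ∈ Finset.univ.erase a, q i) * (1 - R a) :=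
      mul_le_mul_of_nonneg_right h4 (by linarith)
    have h6 := hq1 a
    rw [h1]
    nlinarith

/-- **Signed sums of `n + 2` vectors.** -/
theorem exists_signs_add_one {n : ℕ} (hι : n + 2 ≤ Fintype.card ι)
    (v : ι → EuclideanSpace ℝ (Fin n)) (hv : ∀ i j, i ≠ j → 1 ≤ ‖v i‖ ^ 2 + ‖v j‖ ^ 2) :
    ∃ ε : ι → ℝ, (∀ i, ε i = 1 ∨ ε i = -1) ∧ ∑ i, ‖v i‖ ^ 2 + 1 ≤ ‖∑ i, ε i • v i‖ ^ 2 := by
  classical
  set K := LinearMap.ker (comb v) with hK
  have hdim : 2 ≤ finrank ℝ K := by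
    have h1 := LinearMap.finrank_range_add_finrank_ker (comb v)
    have h2 : finrank ℝ (LinearMap.range (comb v)) ≤ n := by
      have := Submodule.finrank_le (LinearMap.range (comb v))
      simpa using this
    have h3 : finrank ℝ (EuclideanSpace ℝ ι) = Fintype.card ι := finrank_euclideanSpace
    rw [h3] at h1
    show 2 ≤ finrank ℝ (LinearMap.ker (comb v))
    omega
  set b := stdOrthonormalBasis ℝ K with hb
  set t : Fin (finrank ℝ K) → EuclideanSpace ℝ ι := fun k => (b k : EuclideanSpace ℝ ι) with ht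
  have hto : Orthonormal ℝ t := by
    have := b.orthonormal.comp_linearIsometry K.subtypeₗᵢ
    exact this
  have hker : ∀ k, comb v (t k) = 0 := fun k => LinearMap.mem_ker.1 (b k).2
  obtain ⟨ε, hε, h⟩ := exists_signs v t hto hker
  refine ⟨ε, hε, ?_⟩
  have hq : 1 ≤ ∑ i, (∑ k, t k i ^ 2) * ‖v i‖ ^ 2 := by
    refine one_le_sum_mul _ _ (fun i => Finset.sum_nonneg fun _ _ => sq_nonneg _) ?_ ?_ hv
    · intro i
      have h1 := hto.sum_inner_products_le (s := Finset.univ) (EuclideanSpace.basisFun ι ℝ i)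
      rw [(EuclideanSpace.basisFun ι ℝ).orthonormal.1 i] at h1
      refine le_trans (le_of_eq (Finset.sum_congr rfl fun k _ => ?_)) (h1.trans (by norm_num))
      rw [Real.norm_eq_abs, sq_abs, real_inner_comm, EuclideanSpace.basisFun_inner]
    · rw [Finset.sum_comm]
      have h1 : ∀ k, ∑ i, t k i ^ 2 = 1 := by
        intro k
        have h2 : ‖t k‖ ^ 2 = 1 := by rw [hto.1 k]; norm_num
        rw [EuclideanSpace.norm_sq_eq] at h2
        rw [← h2]
        exact Finset.sum_congr rfl fun i _ => by rw [Real.norm_eq_abs, sq_abs]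
      rw [Finset.sum_congr rfl fun k _ => h1 k]
      simp only [Finset.sum_const, Finset.card_univ, Fintype.card_fin, nsmul_eq_mul, mul_one]
      exact_mod_cast hdim
  linarith

end Pool.Agent.MP_4da8b1_gt_H41
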