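import Pool.Agent.Work.MP_4da8b1_gt_helper41.Assembly
import Pool.Agent.Work.MP_4da8b1_gt_helper41.Defs

/-!
Selection of chords.
-/

open Module
open scoped BigOperators

namespace Pool.Agent.MP_4da8b1_gt_H41

variable {n : ℕ}

/-- `(m, w)` is the midpoint and half difference of two different members of `U`. -/
def IsEdge (U : Finset (EuclideanSpace ℝ (Fin n))) (m w : EuclideanSpace ℝ (Fin n)) : Prop :=
  ∃ u ∈ U, ∃ u' ∈ U, u ≠ u' ∧ m = (1 / 2 : ℝ) • (u + u') ∧ w = (1 / 2 : ℝ) • (u - u')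

lemma IsEdge.norm_add {U : Finset (EuclideanSpace ℝ (Fin n))} {m w : EuclideanSpace ℝ (Fin n)}
    (hU : ∀ u ∈ U, ‖u‖ = 1) (h : IsEdge U m w) : ‖m‖ ^ 2 + ‖w‖ ^ 2 = 1 := by
  obtain ⟨u, hu, u', hu', _, rfl, rfl⟩ := h
  rw [norm_smul, norm_smul, mul_pow, mul_pow, norm_add_sq_real, norm_sub_sq_real, hU u hu,
    hU u' hu']
  norm_num
  ring

lemma IsEdge.orth {U : Finset (EuclideanSpace ℝ (Fin n))} {m w : EuclideanSpace ℝ (Fin n)}
    (hU : ∀ u ∈ U, ‖u‖ = 1) (h : IsEdge U m w) : inner ℝ m w = 0 := by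
  obtain ⟨u, hu, u', hu', _, rfl, rfl⟩ := h
  rw [inner_smul_left, inner_smul_right, inner_add_left, inner_sub_right, inner_sub_right,
    real_inner_self_eq_norm_sq, real_inner_self_eq_norm_sq, hU u hu, hU u' hu',
    real_inner_comm u u']
  ring

lemma IsEdge.add_mem {U : Finset (EuclideanSpace ℝ (Fin n))} {m w : EuclideanSpace ℝ (Fin n)}
    (h : IsEdge U m w) : m + w ∈ convexHull ℝ (U : Set (EuclideanSpace ℝ (Fin n))) := by
  obtain ⟨u, hu, u', hu', _, rfl, rfl⟩ := h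
  have : (1 / 2 : ℝ) • (u + u') + (1 / 2 : ℝ) • (u - u') = u := by module
  rw [this]; exact subset_convexHull ℝ _ hu

lemma IsEdge.sub_mem {U : Finset (EuclideanSpace ℝ (Fin n))} {m w : EuclideanSpace ℝ (Fin n)}
    (h : IsEdge U m w) : m - w ∈ convexHull ℝ (U : Set (EuclideanSpace ℝ (Fin n))) := by
  obtain ⟨u, hu, u', hu', _, rfl, rfl⟩ := h
  have : (1 / 2 : ℝ) • (u + u') - (1 / 2 : ℝ) • (u - u') = u' := by module
  rw [this]; exact subset_convexHull ℝ _ hu'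

/-- A balanced family has, for every direction `a`, an edge whose midpoint has nonpositive
inner product with `a`. -/
lemma exists_edge {U : Finset (EuclideanSpace ℝ (Fin n))} (hU : ∀ u ∈ U, ‖u‖ = 1)
    (hcard : 2 ≤ U.card) {lam : EuclideanSpace ℝ (Fin n) → ℝ} (hlam : ∀ u ∈ U, 0 < lam u)
    (hsum : ∑ u ∈ U, lam u • u = 0) (a : EuclideanSpace ℝ (Fin n)) :
    ∃ m w, IsEdge U m w ∧ inner ℝ a m ≤ 0 := by
  classical
  have hne : U.Nonempty := Finset.card_pos.1 (by omega)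
  obtain ⟨p, hp, hpmin⟩ := U.exists_min_image (fun u => inner ℝ a u) hne
  by_contra hcon
  push Not at hcon
  -- for every other member `u` the inner product with `a` is larger than `-⟨a, p⟩`
  have h1 : ∀ u ∈ U.erase p, - inner ℝ a p < inner ℝ a u := by
    intro u hu
    have := hcon ((1 / 2 : ℝ) • (p + u)) ((1 / 2 : ℝ) • (p - u))
      ⟨p, hp, u, Finset.mem_of_mem_erase hu, (Finset.ne_of_mem_erase hu).symm, rfl, rfl⟩
    rw [inner_smul_right, inner_add_right] at this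
    linarith
  have hne2 : (U.erase p).Nonempty := by
    rw [← Finset.card_pos, Finset.card_erase_of_mem hp]; omega
  -- weights
  have h2 : lam p ≤ ∑ u ∈ U.erase p, lam u := by
    have h3 : lam p • p = - ∑ u ∈ U.erase p, lam u • u := by
      rw [← Finset.add_sum_erase _ _ hp] at hsum
      exact eq_neg_of_add_eq_zero_left hsum
    have h4 : ‖lam p • p‖ = lam p := by
      rw [norm_smul, hU p hp, mul_one, Real.norm_eq_abs, abs_of_pos (hlam p hp)]
    rw [← h4, h3, norm_neg]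
    refine (norm_sum_le _ _).trans (Finset.sum_le_sum fun u hu => ?_)
    have hu' := Finset.mem_of_mem_erase hu
    rw [norm_smul, hU u hu', mul_one, Real.norm_eq_abs, abs_of_pos (hlam u hu')]
  have h5 : ∑ u ∈ U, lam u * inner ℝ a u = 0 := by
    have := congrArg (fun x => inner ℝ a x) hsum
    simpa [inner_sum, inner_smul_right] using this
  rw [← Finset.add_sum_erase _ _ hp] at h5
  have h6 : ∑ u ∈ U.erase p, lam u * (- inner ℝ a p) < ∑ u ∈ U.erase p, lam u * inner ℝ a u :=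
    Finset.sum_lt_sum_of_nonempty hne2 fun u hu =>
      mul_lt_mul_of_pos_left (h1 u hu) (hlam u (Finset.mem_of_mem_erase hu))
  rw [← Finset.sum_mul] at h6
  -- `⟨a, p⟩ ≤ 0`
  have h7 : inner ℝ a p ≤ 0 := by
    by_contra h8
    push Not at h8
    have : 0 < ∑ u ∈ U.erase p, lam u * inner ℝ a u :=
      Finset.sum_pos (fun u hu => mul_pos (hlam u (Finset.mem_of_mem_erase hu))
        (lt_of_lt_of_le h8 (hpmin u (Finset.mem_of_mem_erase hu)))) hne2
    have h9 : 0 < lam p * inner ℝ a p := mul_pos (hlam p hp) h8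
    linarith
  nlinarith

lemma HasShort.edge {U : Finset (EuclideanSpace ℝ (Fin n))} {ρ : ℝ} (h : HasShort U ρ)
    (a : EuclideanSpace ℝ (Fin n)) :
    ∃ m w, IsEdge U m w ∧ inner ℝ a m ≤ 0 ∧ ‖m‖ ^ 2 ≤ ρ := by
  obtain ⟨u, hu, v, hv, hne, h1, h2⟩ := h a
  exact ⟨_, _, ⟨u, hu, v, hv, hne, rfl, rfl⟩, h1, h2⟩

lemma HasShort.of_edge {U : Finset (EuclideanSpace ℝ (Fin n))} {ρ : ℝ}
    (h : ∀ a : EuclideanSpace ℝ (Fin n), ∃ m w, IsEdge U m w ∧ inner ℝ a m ≤ 0 ∧ ‖m‖ ^ 2 ≤ ρ) :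
    HasShort U ρ := by
  intro a
  obtain ⟨m, w, ⟨u, hu, v, hv, hne, rfl, rfl⟩, h1, h2⟩ := h a
  exact ⟨u, hu, v, hv, hne, h1, h2⟩

lemma HasShort.mono {U V : Finset (EuclideanSpace ℝ (Fin n))} {ρ σ : ℝ} (h : HasShort V ρ)
    (hVU : V ⊆ U) (hρ : ρ ≤ σ) : HasShort U σ := by
  intro a
  obtain ⟨u, hu, v, hv, hne, h1, h2⟩ := h a
  exact ⟨u, hVU hu, v, hVU hv, hne, h1, h2.trans hρ⟩

/-- Families with a long central chord: `±z` lie in the convex hull, `|z|² ≥ 1/2`, and in every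
direction there is a midpoint of squared norm at most `|z|²`. -/
def HasCentral (U : Finset (EuclideanSpace ℝ (Fin n))) (z : EuclideanSpace ℝ (Fin n)) : Prop :=
  z ∈ convexHull ℝ (U : Set (EuclideanSpace ℝ (Fin n))) ∧
  -z ∈ convexHull ℝ (U : Set (EuclideanSpace ℝ (Fin n))) ∧ 1 / 2 ≤ ‖z‖ ^ 2 ∧
  HasShort U (‖z‖ ^ 2)

/-- The two kinds of families we can treat. -/
def Good (U : Finset (EuclideanSpace ℝ (Fin n))) : Prop :=
  HasShort U (1 / 2) ∨ ∃ z, HasCentral U z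

lemma step_bound (a e : EuclideanSpace ℝ (Fin n)) (h : inner ℝ a e ≤ 0) :
    ‖a‖ ^ 2 + ‖e‖ ^ 2 ≤ ‖a - e‖ ^ 2 := by
  rw [norm_sub_sq_real]; linarith

/-- updating one (zero) coordinate of `m` -/
lemma update_bound {N : ℕ} (c : EuclideanSpace ℝ (Fin n)) (m : Fin N → EuclideanSpace ℝ (Fin n))
    (j : Fin N) (hj : m j = 0) (e : EuclideanSpace ℝ (Fin n))
    (he : inner ℝ (c - ∑ i, m i) e ≤ 0) :
    ‖c - ∑ i, m i‖ ^ 2 + ‖e‖ ^ 2 ≤ ‖c - ∑ i, Function.update m j e i‖ ^ 2 ∧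
    ∑ i, ‖Function.update m j e i‖ ^ 2 = ∑ i, ‖m i‖ ^ 2 + ‖e‖ ^ 2 := by
  classical
  have h1 : ∑ i, Function.update m j e i = ∑ i, m i + e := by
    rw [← Finset.add_sum_erase _ _ (Finset.mem_univ j),
      ← Finset.add_sum_erase _ (fun i => m i) (Finset.mem_univ j), hj, Function.update_self,
      zero_add, add_comm]
    congr 1
    exact Finset.sum_congr rfl fun i hi => by
      rw [Function.update_of_ne (Finset.ne_of_mem_erase hi)]
  have h2 : ∑ i, ‖Function.update m j e i‖ ^ 2 = ∑ i, ‖m i‖ ^ 2 + ‖e‖ ^ 2 := by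
    rw [← Finset.add_sum_erase _ _ (Finset.mem_univ j),
      ← Finset.add_sum_erase _ (fun i => ‖m i‖ ^ 2) (Finset.mem_univ j), hj,
      Function.update_self, norm_zero]
    have : ∑ i ∈ Finset.univ.erase j, ‖Function.update m j e i‖ ^ 2 =
        ∑ i ∈ Finset.univ.erase j, ‖m i‖ ^ 2 :=
      Finset.sum_congr rfl fun i hi => by
        rw [Function.update_of_ne (Finset.ne_of_mem_erase hi)]
    rw [this]; ring
  refine ⟨?_, h2⟩
  rw [h1, ← sub_sub]
  exact step_bound _ _ he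

end Pool.Agent.MP_4da8b1_gt_H41
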