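import Pool.Agent.Work.MP_4da8b1_gt_helper41.Chain

/-!
Signed sums of vectors: `max |∑ ± v_i|² ≥ ∑ |v_i|² + ∑ q_i |v_i|²`.
-/

open Module
open scoped BigOperators

namespace Pool.Agent.MP_4da8b1_gt_H41

variable {ι : Type*} [Fintype ι] {H : Type*} [NormedAddCommGroup H] [InnerProductSpace ℝ H]

/-- `x ↦ ∑ x_i v_i` -/
def comb (v : ι → H) : EuclideanSpace ℝ ι →ₗ[ℝ] H where
  toFun x := ∑ i, x i • v i
  map_add' x y := by simp [add_smul, Finset.sum_add_distrib]
  map_smul' c x := by simp [mul_smul, Finset.smul_sum]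

/-- the Gram operator minus its diagonal -/
noncomputable def offd (v : ι → H) : EuclideanSpace ℝ ι →ₗ[ℝ] EuclideanSpace ℝ ι where
  toFun x := WithLp.toLp 2 fun i => inner ℝ (v i) (comb v x) - ‖v i‖ ^ 2 * x i
  map_add' x y := by
    ext i; simp [inner_add_right]; ring
  map_smul' c x := by
    ext i; simp [inner_smul_right]; ring

lemma inner_offd (v : ι → H) (y x : EuclideanSpace ℝ ι) :
    inner ℝ y (offd v x) = inner ℝ (comb v y) (comb v x) - ∑ i, ‖v i‖ ^ 2 * (y i * x i) := by
  have h1 : inner ℝ (comb v y) (comb v x) = ∑ i, y i * inner ℝ (v i) (comb v x) := by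
    show inner ℝ (∑ i, y i • v i) (comb v x) = _
    rw [sum_inner]
    exact Finset.sum_congr rfl fun i _ => by rw [inner_smul_left]; simp
  rw [h1, PiLp.inner_apply, ← Finset.sum_sub_distrib]
  refine Finset.sum_congr rfl fun i _ => ?_
  simp only [offd, LinearMap.coe_mk, AddHom.coe_mk, RCLike.inner_apply, conj_trivial]
  ring

lemma offd_symm (v : ι → H) : (offd v).IsSymmetric := by
  intro x y
  rw [real_inner_comm, inner_offd, inner_offd, real_inner_comm]
  congr 1
  exact Finset.sum_congr rfl fun i _ => by ring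

/-- the quadratic form `|∑ x_i v_i|² - ∑ x_i² |v_i|²` -/
noncomputable def qf (v : ι → H) (x : EuclideanSpace ℝ ι) : ℝ :=
  ‖comb v x‖ ^ 2 - ∑ i, ‖v i‖ ^ 2 * x i ^ 2

lemma inner_offd_self (v : ι → H) (x : EuclideanSpace ℝ ι) : inner ℝ x (offd v x) = qf v x := by
  rw [inner_offd, qf, real_inner_self_eq_norm_sq]
  congr 1
  exact Finset.sum_congr rfl fun i _ => by ring

/-- Rounding: a point of the cube can be replaced by a vertex without decreasing `qf`. -/
lemma exists_vertex (v : ι → H) {x : EuclideanSpace ℝ ι} (hx : x ∈ cube ι) :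
    ∃ y : EuclideanSpace ℝ ι, (∀ i, y i = 1 ∨ y i = -1) ∧ qf v x ≤ qf v y := by
  classical
  have key : ∀ s : Finset ι, ∃ y ∈ cube ι, (∀ i ∈ s, y i = 1 ∨ y i = -1) ∧ qf v x ≤ qf v y := by
    intro s
    induction s using Finset.induction_on with
    | empty => exact ⟨x, hx, by simp, le_rfl⟩
    | insert j s hj ih =>
      obtain ⟨y, hyc, hys, hxy⟩ := ih
      -- `qf` is affine in the coordinate `j`
      set z : ℝ → EuclideanSpace ℝ ι := fun r => WithLp.toLp 2 (Function.update y.ofLp j r) with hz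
      have hzj : ∀ r, z r j = r := by intro r; simp [hz]
      have hzi : ∀ r i, i ≠ j → z r i = y i := by intro r i hi; simp [hz, hi]
      have hzy : z (y j) = y := by ext i; by_cases hi : i = j <;> simp [hz, hi]
      set w : H := ∑ i ∈ Finset.univ.erase j, y i • v i with hw
      have hcomb : ∀ r, comb v (z r) = r • v j + w := by
        intro r
        have : comb v (z r) = ∑ i, z r i • v i := rfl
        rw [this, ← Finset.add_sum_erase _ _ (Finset.mem_univ j), hzj]
        congr 1
        refine Finset.sum_congr rfl fun i hi => ?_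
        rw [hzi r i (Finset.ne_of_mem_erase hi)]
      have hq : ∀ r, qf v (z r) = 2 * r * inner ℝ (v j) w +
          (‖w‖ ^ 2 - ∑ i ∈ Finset.univ.erase j, ‖v i‖ ^ 2 * y i ^ 2) := by
        intro r
        rw [qf, hcomb, ← Finset.add_sum_erase _ _ (Finset.mem_univ j), hzj]
        have h1 : ∑ i ∈ Finset.univ.erase j, ‖v i‖ ^ 2 * z r i ^ 2 =
            ∑ i ∈ Finset.univ.erase j, ‖v i‖ ^ 2 * y i ^ 2 :=
          Finset.sum_congr rfl fun i hi => by rw [hzi r i (Finset.ne_of_mem_erase hi)]
        rw [h1, norm_add_sq_real, norm_smul, inner_smul_left, Real.norm_eq_abs, mul_pow, sq_abs]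
        simp only [conj_trivial]
        ring
      have hyj : |y j| ≤ 1 := hyc j
      rw [abs_le] at hyj
      -- choose the better endpoint
      obtain ⟨r, hr, hle⟩ : ∃ r : ℝ, (r = 1 ∨ r = -1) ∧ qf v y ≤ qf v (z r) := by
        rcases le_total 0 (inner ℝ (v j) w) with h | h
        · refine ⟨1, Or.inl rfl, ?_⟩
          rw [← hzy, hq, hq]
          nlinarith
        · refine ⟨-1, Or.inr rfl, ?_⟩
          rw [← hzy, hq, hq]
          nlinarith
      refine ⟨z r, ?_, ?_, hxy.trans hle⟩
      · intro i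
        by_cases hi : i = j
        · rw [hi, hzj]
          rcases hr with rfl | rfl <;> simp
        · rw [hzi r i hi]; exact hyc i
      · intro i hi
        by_cases hij : i = j
        · rw [hij, hzj]; exact hr
        · rw [hzi r i hij]
          exact hys i ((Finset.mem_insert.1 hi).resolve_left hij)
  obtain ⟨y, _, hy, hxy⟩ := key Finset.univ
  exact ⟨y, fun i => hy i (Finset.mem_univ i), hxy⟩

/-- **Signed sums.** If `t` is an orthonormal family of linear dependencies of the vectors `v_i`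
then some signed sum of the `v_i` satisfies
`|∑ ε_i v_i|² ≥ ∑ |v_i|² + ∑_i (∑_k t_k(i)²) |v_i|²`. -/
theorem exists_signs (v : ι → H) {κ : Type*} [Fintype κ] (t : κ → EuclideanSpace ℝ ι)
    (ht : Orthonormal ℝ t) (hker : ∀ k, comb v (t k) = 0) :
    ∃ ε : ι → ℝ, (∀ i, ε i = 1 ∨ ε i = -1) ∧
      ∑ i, ‖v i‖ ^ 2 + ∑ i, (∑ k, t k i ^ 2) * ‖v i‖ ^ 2 ≤ ‖∑ i, ε i • v i‖ ^ 2 := by
  classical
  set n := Fintype.card ι with hn
  have hfr : finrank ℝ (EuclideanSpace ℝ ι) = n := finrank_euclideanSpace
  set hT := offd_symm v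
  set b := hT.eigenvectorBasis hfr with hb
  set lam := hT.eigenvalues hfr with hlam
  have hanti : Antitone lam := hT.eigenvalues_antitone hfr
  have hTb : ∀ i, offd v (b i) = lam i • b i := fun i => hT.apply_eigenvectorBasis hfr i
  -- diagonalisation
  have hdiag : ∀ x : EuclideanSpace ℝ ι, qf v x = ∑ i, lam i * inner ℝ (b i) x ^ 2 := by
    intro x
    rw [← inner_offd_self, ← b.sum_inner_mul_inner x (offd v x)]
    refine Finset.sum_congr rfl fun i _ => ?_
    rw [← hT (b i) x, hTb, inner_smul_left, real_inner_comm x (b i)]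
    simp only [conj_trivial]
    ring
  -- trace zero
  have htr : ∑ i, lam i = 0 := by
    have h1 : LinearMap.trace ℝ _ (offd v) = ∑ i, inner ℝ (b i) (offd v (b i)) :=
      LinearMap.trace_eq_sum_inner _ b
    have h2 : LinearMap.trace ℝ _ (offd v) =
        ∑ i, inner ℝ (EuclideanSpace.basisFun ι ℝ i) (offd v (EuclideanSpace.basisFun ι ℝ i)) :=
      LinearMap.trace_eq_sum_inner _ _
    have h3 : ∀ i, inner ℝ (b i) (offd v (b i)) = lam i := by
      intro i
      rw [hTb, inner_smul_right, real_inner_self_eq_norm_sq, b.orthonormal.1 i]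
      simp
    have h4 : ∀ i, inner ℝ (EuclideanSpace.basisFun ι ℝ i)
        (offd v (EuclideanSpace.basisFun ι ℝ i)) = 0 := by
      intro i
      rw [inner_offd_self, qf]
      have h5 : comb v (EuclideanSpace.basisFun ι ℝ i) = v i := by
        show ∑ k, (EuclideanSpace.basisFun ι ℝ i) k • v k = v i
        simp [EuclideanSpace.basisFun_apply]
      rw [h5]
      simp [EuclideanSpace.basisFun_apply]
    rw [Finset.sum_congr rfl fun i _ => h3 i] at h1
    rw [Finset.sum_congr rfl fun i _ => h4 i, Finset.sum_const_zero] at h2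
    rw [← h1, h2]
  -- the cut-off index
  have hex : ∃ k : ℕ, ∀ i : Fin n, k ≤ (i : ℕ) → lam i ≤ 0 := ⟨n, fun i hi => by omega⟩
  set k := Nat.find hex with hk
  have hk1 : ∀ i : Fin n, k ≤ (i : ℕ) → lam i ≤ 0 := Nat.find_spec hex
  have hkn : k ≤ n := Nat.find_le (fun i hi => by omega)
  obtain ⟨x, hxc, hxF, hx⟩ := chain b k hkn (fun i => max (lam i) 0)
    (fun i j hij => max_le_max (hanti hij) le_rfl) (fun i => le_max_right _ _)
    (fun i hi => max_eq_right (hk1 i hi))
  have hx2 : ∑ i, max (lam i) 0 ≤ qf v x := by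
    rw [hdiag]
    refine hx.trans (Finset.sum_le_sum fun i _ => ?_)
    rcases le_or_gt 0 (lam i) with h | h
    · rw [max_eq_left h]
    · have : k ≤ (i : ℕ) := by
        by_contra hcon
        push Not at hcon
        have := Nat.find_min hex hcon
        exact this fun j hj => (hanti (show i ≤ j from hj)).trans h.le
      rw [hxF i this]
      simp
  obtain ⟨y, hy, hxy⟩ := exists_vertex v hxc
  refine ⟨fun i => y i, hy, ?_⟩
  -- lower bound for the positive part
  have hpos : ∑ i, (∑ k, t k i ^ 2) * ‖v i‖ ^ 2 ≤ ∑ i, max (lam i) 0 := by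
    have h1 : ∑ k, qf v (t k) = - ∑ i, (∑ k, t k i ^ 2) * ‖v i‖ ^ 2 := by
      have : ∀ k, qf v (t k) = - ∑ i, ‖v i‖ ^ 2 * t k i ^ 2 := by
        intro k
        rw [qf, hker k]
        simp
      rw [Finset.sum_congr rfl fun k _ => this k, Finset.sum_neg_distrib, Finset.sum_comm]
      congr 1
      refine Finset.sum_congr rfl fun i _ => ?_
      rw [Finset.sum_mul]
      exact Finset.sum_congr rfl fun k _ => by ring
    have h2 : ∑ k, qf v (t k) = ∑ i, lam i * ∑ k, inner ℝ (b i) (t k) ^ 2 := by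
      rw [Finset.sum_congr rfl fun k _ => hdiag (t k), Finset.sum_comm]
      exact Finset.sum_congr rfl fun i _ => by rw [Finset.mul_sum]
    have h3 : ∀ i, ∑ k, inner ℝ (b i) (t k) ^ 2 ≤ 1 := by
      intro i
      have h := ht.sum_inner_products_le (s := Finset.univ) (b i)
      rw [b.orthonormal.1 i] at h
      refine le_trans (le_of_eq (Finset.sum_congr rfl fun k _ => ?_)) (h.trans (by norm_num))
      rw [Real.norm_eq_abs, sq_abs, real_inner_comm]
    have h4 : ∀ i, lam i * ∑ k, inner ℝ (b i) (t k) ^ 2 ≥ lam i - max (lam i) 0 := by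
      intro i
      have h0 : 0 ≤ ∑ k, inner ℝ (b i) (t k) ^ 2 := Finset.sum_nonneg fun _ _ => sq_nonneg _
      rcases le_or_gt 0 (lam i) with h | h
      · rw [max_eq_left h, sub_self]
        positivity
      · rw [max_eq_right h.le, sub_zero]
        have := h3 i
        nlinarith
    have h5 : ∑ i, (lam i - max (lam i) 0) ≤ ∑ k, qf v (t k) := by
      rw [h2]; exact Finset.sum_le_sum fun i _ => h4 i
    rw [Finset.sum_sub_distrib, htr, zero_sub, h1] at h5
    linarith
  have h6 : qf v y = ‖∑ i, y i • v i‖ ^ 2 - ∑ i, ‖v i‖ ^ 2 := by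
    rw [qf]
    congr 1
    refine Finset.sum_congr rfl fun i _ => ?_
    rcases hy i with h | h <;> rw [h] <;> ring
  have h7 : ∑ i, max (lam i) 0 ≤ ‖∑ i, y i • v i‖ ^ 2 - ∑ i, ‖v i‖ ^ 2 := by
    rw [← h6]; exact hx2.trans hxy
  linarith

end Pool.Agent.MP_4da8b1_gt_H41
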